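import Mathlib

set_option autoImplicit false

namespace Pool.Agent.TH784.RF

open Subgroup

/-- residually finite groups -/
def ResFin (G : Type*) [Group G] : Prop :=
  ∀ x : G, x ≠ 1 → ∃ N : Subgroup G, N.Normal ∧ N.FiniteIndex ∧ x ∉ N

theorem avoid {G : Type*} [Group G] (hrf : ResFin G) (F : Set G) (hF : F.Finite) :
    ∃ N : Subgroup G, N.Normal ∧ N.FiniteIndex ∧ ∀ x ∈ F, x ≠ 1 → x ∉ N := by
  induction F, hF using Set.Finite.induction_on with
  | empty => exact ⟨⊤, inferInstance, inferInstance, by simp⟩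
  | @insert x F _ _ ih =>
    obtain ⟨N, h1, h2, h3⟩ := ih
    by_cases hx : x = 1
    · refine ⟨N, h1, h2, ?_⟩
      intro y hy hy1
      rcases hy with rfl | hy
      · exact absurd hx hy1
      · exact h3 y hy hy1
    · obtain ⟨M, h4, h5, h6⟩ := hrf x hx
      refine ⟨N ⊓ M, inferInstance, inferInstance, ?_⟩
      intro y hy hy1 hyN
      rw [mem_inf] at hyN
      rcases hy with rfl | hy
      · exact h6 hyN.2
      · exact h3 y hy hy1 hyN.1

theorem fin_of {G : Type*} [Group G] (N : Subgroup G) (hN : N.FiniteIndex) (h : Finite N) :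
    Finite G := by
  have h1 : Nat.card G ≠ 0 := by
    rw [← N.card_mul_index]
    exact mul_ne_zero Nat.card_pos.ne' hN.index_ne_zero
  exact Nat.finite_of_card_ne_zero h1

theorem inf_set {G : Type*} [Group G] [Infinite G] (N : Subgroup G) (hN : N.FiniteIndex) :
    (N : Set G).Infinite := by
  intro h
  have : Finite N := h.to_subtype
  exact not_finite_iff_infinite.mpr ‹Infinite G› (fin_of N hN this)

/-- the subgroup generated by `a` and `g⁻¹ b g` -/
def K {G : Type*} [Group G] (a b g : G) : Subgroup G := closure {a, g⁻¹ * b * g}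

theorem K_centA {G : Type*} [Group G] (a b : G) (hgen : closure {a, b} = ⊤) (c : G)
    (hc : c * a = a * c) : K a b c = ⊤ := by
  have h1 : (closure {a, b}).map (MulAut.conj c⁻¹).toMonoidHom = K a b c := by
    rw [MonoidHom.map_closure, K]
    congr 1
    rw [Set.image_pair]
    have h2 : (MulAut.conj c⁻¹).toMonoidHom a = a := by
      change c⁻¹ * a * c⁻¹⁻¹ = a
      rw [inv_inv, mul_assoc, ← hc, inv_mul_cancel_left]
    have h3 : (MulAut.conj c⁻¹).toMonoidHom b = c⁻¹ * b * c := by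
      change c⁻¹ * b * c⁻¹⁻¹ = _
      rw [inv_inv]
    rw [h2, h3]
  rw [← h1, hgen]
  exact Subgroup.map_top_of_surjective _ (MulAut.conj c⁻¹).surjective

theorem K_centB {G : Type*} [Group G] (a b : G) (hgen : closure {a, b} = ⊤) (c : G)
    (hc : c * b = b * c) : K a b c = ⊤ := by
  have h1 : c⁻¹ * b * c = b := by
    rw [mul_assoc, ← hc, inv_mul_cancel_left]
  rw [K, h1, hgen]

theorem sup_top {G : Type*} [Group G] (a b : G) (hgen : closure {a, b} = ⊤) (M : Subgroup G)
    (g : G) (hg : g ∈ M) : K a b g ⊔ M = ⊤ := by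
  rw [eq_top_iff, ← hgen, closure_le]
  intro x hx
  have ha : a ∈ K a b g ⊔ M := (le_sup_left : K a b g ≤ _) (subset_closure (by simp))
  have hb' : g⁻¹ * b * g ∈ K a b g ⊔ M := (le_sup_left : K a b g ≤ _) (subset_closure (by simp))
  have hg' : g ∈ K a b g ⊔ M := (le_sup_right : M ≤ _) hg
  rcases hx with rfl | hx
  · exact ha
  · rw [Set.mem_singleton_iff] at hx
    subst hx
    have h := mul_mem (mul_mem hg' hb') (inv_mem hg')
    have e : g * (g⁻¹ * x * g) * g⁻¹ = x := by group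
    rwa [e] at h

/-- in a finite subgroup with an involution `a` the elements of a subgroup normalised by `a` in which
`a` has trivial centraliser are inverted -/
theorem inverted {G : Type*} [Group G] (a : G) (ha : a * a = 1) (L : Subgroup G) (hL : Finite L)
    (hnorm : ∀ x ∈ L, a * x * a ∈ L) (hc : ∀ x ∈ L, x * a = a * x → x = 1) (y : G) (hy : y ∈ L) :
    a * y * a = y⁻¹ := by
  have hainv : a⁻¹ = a := inv_eq_of_mul_eq_one_right ha
  have hmem : ∀ x : L, (x : G)⁻¹ * (a * x * a) ∈ L := fun x =>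
    mul_mem (inv_mem x.2) (hnorm x x.2)
  let θ : L → L := fun x => ⟨(x : G)⁻¹ * (a * x * a), hmem x⟩
  have hinj : Function.Injective θ := by
    intro x z h
    have h1 : (x : G)⁻¹ * (a * x * a) = (z : G)⁻¹ * (a * z * a) := congrArg Subtype.val h
    have h2 : ((z : G) * (x : G)⁻¹) * a = a * ((z : G) * (x : G)⁻¹) := by
      have h3 : (z : G) * ((x : G)⁻¹ * (a * x * a)) = a * z * a := by
        rw [h1, mul_inv_cancel_left]
      calc ((z : G) * (x : G)⁻¹) * a = (z : G) * ((x : G)⁻¹ * (a * x * a)) * (a⁻¹ * (x : G)⁻¹) := by group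
        _ = a * z * a * (a⁻¹ * (x : G)⁻¹) := by rw [h3]
        _ = a * ((z : G) * (x : G)⁻¹) := by group
    have h3 := hc _ (mul_mem z.2 (inv_mem x.2)) h2
    rw [mul_inv_eq_one] at h3
    exact Subtype.ext h3.symm
  obtain ⟨x, hx⟩ := (Finite.injective_iff_surjective.mp hinj) ⟨y, hy⟩
  have h1 : (x : G)⁻¹ * (a * x * a) = y := congrArg Subtype.val hx
  rw [← h1]
  calc a * ((x : G)⁻¹ * (a * x * a)) * a = a * (x : G)⁻¹ * a * x * (a * a) := by group
    _ = a * (x : G)⁻¹ * a * x := by rw [ha, mul_one]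
    _ = ((x : G)⁻¹ * (a⁻¹ * x * a⁻¹))⁻¹ := by group
    _ = ((x : G)⁻¹ * (a * x * a))⁻¹ := by rw [hainv]


/-- the main theorem -/
theorem main {G : Type*} [Group G] [Infinite G] (a b : G) (ha : a * a = 1)
    (hgen : closure {a, b} = ⊤) (hrf : ResFin G) :
    {g : G | (K a b g : Set G).Infinite}.Infinite := by
  have hainv : a⁻¹ = a := inv_eq_of_mul_eq_one_right ha
  by_contra hX
  rw [Set.not_infinite] at hX
  set X : Set G := {g : G | (K a b g : Set G).Infinite} with hXdef
  have hXfin : ∀ g, g ∉ X → (K a b g : Set G).Finite := by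
    intro g hg
    rw [hXdef, Set.mem_ofPred_eq, Set.not_infinite] at hg
    exact hg
  have htop : ((⊤ : Subgroup G) : Set G).Infinite := by
    rw [coe_top]
    exact Set.infinite_univ
  have hCa : {c : G | c * a = a * c}.Finite := by
    refine hX.subset fun c hc => ?_
    rw [hXdef, Set.mem_ofPred_eq, K_centA a b hgen c hc]
    exact htop
  have hCb : {c : G | c * b = b * c}.Finite := by
    refine hX.subset fun c hc => ?_
    rw [hXdef, Set.mem_ofPred_eq, K_centB a b hgen c hc]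
    exact htop
  obtain ⟨N, hNn, hNf, hNa⟩ := avoid hrf _ (hCa.union hCb)
  have hNca : ∀ x ∈ N, x * a = a * x → x = 1 := by
    intro x hx hxa
    by_contra h1
    exact hNa x (Or.inl hxa) h1 hx
  have hNcb : ∀ x ∈ N, x * b = b * x → x = 1 := by
    intro x hx hxb
    by_contra h1
    exact hNa x (Or.inr hxb) h1 hx
  have hNinf := inf_set N hNf
  have haNa : ∀ x ∈ N, a * x * a ∈ N := by
    intro x hx
    have := hNn.conj_mem x hx a
    rwa [hainv] at this
  -- `a` inverts `N`
  have hinv : ∀ y ∈ N, a * y * a = y⁻¹ := by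
    intro y hy
    by_contra hne
    have hne' : a * y * a * y ≠ 1 := by
      intro h
      exact hne (eq_inv_of_mul_eq_one_left h)
    obtain ⟨M, hMn, hMf, hM⟩ := hrf _ hne'
    apply hM
    have hMN : (M ⊓ N).FiniteIndex := inferInstance
    obtain ⟨g, hg, hgX⟩ := (inf_set (M ⊓ N) hMN).exists_notMem_finite hX
    have hgMN : g ∈ M ⊓ N := hg
    have hK := hXfin g hgX
    have hsup := sup_top a b hgen (M ⊓ N) g hgMN
    have hyt : y ∈ K a b g ⊔ (M ⊓ N) := by
      rw [hsup]
      exact mem_top y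
    rw [Subgroup.mem_sup_of_normal_right] at hyt
    obtain ⟨k, hk, m, hm, hkm⟩ := hyt
    have hkN : k ∈ N := by
      have : k = y * m⁻¹ := by rw [← hkm]; group
      rw [this]
      exact mul_mem hy (inv_mem hm.2)
    have haK : a ∈ K a b g := subset_closure (by simp)
    have hL : Finite (K a b g ⊓ N : Subgroup G) :=
      (hK.subset (fun x hx => hx.1)).to_subtype
    have hk1 := inverted a ha (K a b g ⊓ N) hL
      (fun x hx => ⟨mul_mem (mul_mem haK hx.1) haK, haNa x hx.2⟩)
      (fun x hx hxa => hNca x hx.2 hxa) k ⟨hk, hkN⟩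
    have h2 : a * y * a * y = (k⁻¹ * (a * m * a) * k) * m := by
      rw [← hkm]
      calc a * (k * m) * a * (k * m) = (a * k * a) * (a⁻¹ * m * a) * k * m := by group
        _ = (k⁻¹ * (a * m * a) * k) * m := by rw [hk1, hainv]
    rw [h2]
    have h3 : a * m * a ∈ M := by
      have := hMn.conj_mem m hm.1 a
      rwa [hainv] at this
    have h4 : k⁻¹ * (a * m * a) * k ∈ M := by
      have := hMn.conj_mem _ h3 k⁻¹
      rwa [inv_inv] at this
    exact mul_mem h4 hm.1
  have hcomm : ∀ x ∈ N, ∀ y ∈ N, x * y = y * x := by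
    intro x hx y hy
    have h1 := hinv (x * y) (mul_mem hx hy)
    have h2 : a * (x * y) * a = (a * x * a) * (a * y * a) := by
      calc a * (x * y) * a = a * x * (a * a) * y * a := by rw [ha]; group
        _ = (a * x * a) * (a * y * a) := by group
    rw [h2, hinv x hx, hinv y hy] at h1
    have h3 := congrArg (fun z => z⁻¹) h1
    simp only [mul_inv_rev, inv_inv] at h3
    exact h3.symm
  -- differences of two good elements
  have hkey : ∀ g ∈ N, g ∉ X → ∀ g' ∈ N, g' ∉ X →
      ∃ s : ℕ, 0 < s ∧ ((g⁻¹ * b * g)⁻¹ * (g'⁻¹ * b * g')) ^ s = 1 := by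
    intro g hg hgX g' hg' hgX'
    set x := g⁻¹ * b * g with hx
    set y := g'⁻¹ * b * g' with hy
    set n := x⁻¹ * y with hn
    have hnN : n ∈ N := by
      have e : n = g⁻¹ * ((b⁻¹ * g * g'⁻¹ * b) * g') := by
        rw [hn, hx, hy]
        group
      rw [e]
      refine mul_mem (inv_mem hg) (mul_mem ?_ hg')
      have := hNn.conj_mem (g * g'⁻¹) (mul_mem hg (inv_mem hg')) b⁻¹
      rw [inv_inv] at this
      rwa [← mul_assoc] at this
    have hyx : y = x * n := by
      rw [hn]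
      group
    have haK : a ∈ K a b g := subset_closure (by simp)
    have hxK : x ∈ K a b g := subset_closure (by simp [hx])
    have haK' : a ∈ K a b g' := subset_closure (by simp)
    have hyK' : y ∈ K a b g' := subset_closure (by simp [hy])
    have hu : a * x * a * x⁻¹ ∈ K a b g := mul_mem (mul_mem (mul_mem haK hxK) haK) (inv_mem hxK)
    have hw : a * y * a * y⁻¹ ∈ K a b g' :=
      mul_mem (mul_mem (mul_mem haK' hyK') haK') (inv_mem hyK')
    have : Finite (K a b g) := (hXfin g hgX).to_subtype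
    have : Finite (K a b g') := (hXfin g' hgX').to_subtype
    obtain ⟨r, hr, hur⟩ := (isOfFinOrder_of_finite (⟨_, hu⟩ : K a b g)).exists_pow_eq_one
    obtain ⟨r', hr', hwr⟩ := (isOfFinOrder_of_finite (⟨_, hw⟩ : K a b g')).exists_pow_eq_one
    have hur' : (a * x * a * x⁻¹) ^ r = 1 := congrArg Subtype.val hur
    have hwr' : (a * y * a * y⁻¹) ^ r' = 1 := congrArg Subtype.val hwr
    have hxN : ∀ m ∈ N, x⁻¹ * m * x ∈ N := by
      intro m hm
      have := hNn.conj_mem m hm x⁻¹
      rwa [inv_inv] at this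
    have hxN' : ∀ m ∈ N, x * m * x⁻¹ ∈ N := fun m hm => hNn.conj_mem m hm x
    have hcu : ∀ m ∈ N, (a * x * a * x⁻¹) * m = m * (a * x * a * x⁻¹) := by
      intro m hm
      have e1 : a * (x⁻¹ * m * x) * a = (x⁻¹ * m * x)⁻¹ := hinv _ (hxN m hm)
      have e2 : a * m⁻¹ * a = m := by
        rw [hinv _ (inv_mem hm), inv_inv]
      calc (a * x * a * x⁻¹) * m = a * x * (a * (x⁻¹ * m * x) * a) * (a⁻¹ * x⁻¹) := by group
        _ = a * x * (x⁻¹ * m * x)⁻¹ * (a⁻¹ * x⁻¹) := by rw [e1]
        _ = (a * m⁻¹ * a) * (a⁻¹ * x * a⁻¹ * x⁻¹) := by group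
        _ = m * (a * x * a * x⁻¹) := by rw [e2, hainv]
    set c := x * (n * n) * x⁻¹ with hc
    have hcN : c ∈ N := hxN' _ (mul_mem hnN hnN)
    have hana : n * a = a * n⁻¹ := by
      have := hinv n hnN
      calc n * a = a⁻¹ * (a * n * a) := by group
        _ = a * n⁻¹ := by rw [this, hainv]
    have hwu : a * y * a * y⁻¹ = c⁻¹ * (a * x * a * x⁻¹) := by
      have e1 : a * (x * (n * n) * x⁻¹) * a = (x * (n * n) * x⁻¹)⁻¹ := hinv _ hcN
      calc a * y * a * y⁻¹ = a * x * (n * a) * n⁻¹ * x⁻¹ := by rw [hyx]; group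
        _ = a * x * a * n⁻¹ * n⁻¹ * x⁻¹ := by rw [hana]; group
        _ = (a * x * a * x⁻¹) * (x * (n * n) * x⁻¹)⁻¹ := by group
        _ = c⁻¹ * (a * x * a * x⁻¹) := by rw [hcu _ (inv_mem hcN)]
    have hcomm' : Commute c⁻¹ (a * x * a * x⁻¹) := (hcu _ (inv_mem hcN)).symm
    have h1 : (c⁻¹) ^ (r' * r) = 1 := by
      have h2 : (a * y * a * y⁻¹) ^ (r' * r) = 1 := by rw [pow_mul, hwr', one_pow]
      rw [hwu, hcomm'.mul_pow] at h2
      have h3 : (a * x * a * x⁻¹) ^ (r' * r) = 1 := by rw [mul_comm r' r, pow_mul, hur', one_pow]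
      rwa [h3, mul_one] at h2
    have h2 : c ^ (r' * r) = 1 := by
      rw [inv_pow, inv_eq_one] at h1
      exact h1
    have h3 : (n * n) ^ (r' * r) = 1 := by
      rw [hc, conj_pow] at h2
      have h4 : (n * n) ^ (r' * r) = x⁻¹ * (x * (n * n) ^ (r' * r) * x⁻¹) * x := by group
      rw [h4, h2]
      group
    refine ⟨2 * (r' * r), by positivity, ?_⟩
    rw [pow_mul, pow_two]
    exact h3
  have htors : ∀ h ∈ N, ∃ s : ℕ, 0 < s ∧ h ^ s = 1 := by
    intro h hh
    have hY : (X ∪ {g | h * g ∈ X}).Finite :=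
      hX.union (hX.preimage ((mul_right_injective h).injOn))
    obtain ⟨g', hg', hgY⟩ := hNinf.exists_notMem_finite hY
    have hg'X : g' ∉ X := fun h1 => hgY (Or.inl h1)
    have hgX : h * g' ∉ X := fun h1 => hgY (Or.inr h1)
    have hg'N : g' ∈ N := hg'
    obtain ⟨s, hs, hs'⟩ := hkey (h * g') (mul_mem hh hg'N) hgX g' hg'N hg'X
    refine ⟨s, hs, ?_⟩
    have hbh : b⁻¹ * h * b ∈ N := by
      have := hNn.conj_mem h hh b⁻¹
      rwa [inv_inv] at this
    have e : ((h * g')⁻¹ * b * (h * g'))⁻¹ * (g'⁻¹ * b * g') = (b⁻¹ * h * b) * h⁻¹ := by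
      have e1 : (b⁻¹ * h * b) * g' = g' * (b⁻¹ * h * b) := hcomm _ hbh _ hg'N
      have e2 : h⁻¹ * g' = g' * h⁻¹ := hcomm _ (inv_mem hh) _ hg'N
      calc ((h * g')⁻¹ * b * (h * g'))⁻¹ * (g'⁻¹ * b * g')
          = g'⁻¹ * (h⁻¹ * ((b⁻¹ * h * b) * g')) := by group
        _ = g'⁻¹ * ((h⁻¹ * g') * (b⁻¹ * h * b)) := by rw [e1]; group
        _ = h⁻¹ * (b⁻¹ * h * b) := by rw [e2]; group
        _ = (b⁻¹ * h * b) * h⁻¹ := hcomm _ (inv_mem hh) _ hbh
    rw [e] at hs'
    have hco : Commute (b⁻¹ * h * b) h⁻¹ := hcomm _ hbh _ (inv_mem hh)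
    rw [hco.mul_pow] at hs'
    apply hNcb _ (pow_mem hh s)
    have e3 : (b⁻¹ * h * b) ^ s = b⁻¹ * h ^ s * b := by
      have := conj_pow (i := s) (a := b⁻¹) (b := h)
      rwa [inv_inv] at this
    rw [e3, inv_pow, mul_inv_eq_one] at hs'
    calc h ^ s * b = b * (b⁻¹ * h ^ s * b) := by group
      _ = b * h ^ s := by rw [hs']
  have hfg : Group.FG G := by
    rw [Group.fg_iff]
    exact ⟨{a, b}, hgen, by simp⟩
  have hNfg : Group.FG N := inferInstance
  let _ : CommGroup N := { (inferInstance : Group N) with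
    mul_comm := fun x y => Subtype.ext (hcomm x x.2 y y.2) }
  have hfin : Finite N := by
    refine CommGroup.finite_of_fg_isMulTorsion N fun x => ?_
    obtain ⟨s, hs, hs'⟩ := htors x x.2
    exact isOfFinOrder_iff_pow_eq_one.mpr ⟨s, hs, Subtype.ext hs'⟩
  exact hNinf (Set.toFinite _)

theorem K_swap {G : Type*} [Group G] (a b g : G) (h : (K b a g : Set G).Infinite) :
    (K a b g⁻¹ : Set G).Infinite := by
  have h1 : (K b a g).map (MulAut.conj g).toMonoidHom = K a b g⁻¹ := by
    rw [K, K, MonoidHom.map_closure]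
    congr 1
    rw [Set.image_pair]
    have h2 : (MulAut.conj g).toMonoidHom b = g⁻¹⁻¹ * b * g⁻¹ := by
      change g * b * g⁻¹ = _
      rw [inv_inv]
    have h3 : (MulAut.conj g).toMonoidHom (g⁻¹ * a * g) = a := by
      change g * (g⁻¹ * a * g) * g⁻¹ = a
      group
    rw [h2, h3, Set.pair_comm]
  rw [← h1, Subgroup.coe_map]
  exact h.image (MulAut.conj g).injective.injOn

/-- one of `a`, `b` is an involution -/
theorem main2 {G : Type*} [Group G] [Infinite G] (a b : G) (ha : a * a = 1 ∨ b * b = 1)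
    (hgen : closure {a, b} = ⊤) (hrf : ResFin G) :
    {g : G | (K a b g : Set G).Infinite}.Infinite := by
  rcases ha with ha | hb
  · exact main a b ha hgen hrf
  · have h1 := main b a hb (by rw [Set.pair_comm]; exact hgen) hrf
    have h2 := h1.image (f := fun g => g⁻¹) inv_injective.injOn
    refine h2.mono ?_
    rintro _ ⟨g, hg, rfl⟩
    exact K_swap a b g hg

end Pool.Agent.TH784.RF
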