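import Mathlib
import Pool.Agent.TH784.RF.Inv

set_option autoImplicit false

namespace Pool.Agent.TH784.RF

open Subgroup

theorem cent_fin {G : Type*} [Group G] [Infinite G] (a b : G) (hgen : closure {a, b} = ⊤)
    (hX : {g : G | (K a b g : Set G).Infinite}.Finite) :
    {c : G | c * a = a * c}.Finite ∧ {c : G | c * b = b * c}.Finite := by
  have htop : ((⊤ : Subgroup G) : Set G).Infinite := by
    rw [coe_top]
    exact Set.infinite_univ
  constructor
  · refine hX.subset fun c hc => ?_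
    rw [Set.mem_ofPred_eq, K_centA a b hgen c hc]
    exact htop
  · refine hX.subset fun c hc => ?_
    rw [Set.mem_ofPred_eq, K_centB a b hgen c hc]
    exact htop

/-- every infinite normal subgroup is of finite index -/
theorem normal_fin {G : Type*} [Group G] (a b : G) (hgen : closure {a, b} = ⊤)
    (hX : {g : G | (K a b g : Set G).Infinite}.Finite) (N : Subgroup G) (hN : N.Normal)
    (hinf : (N : Set G).Infinite) : N.FiniteIndex := by
  obtain ⟨g, hg, hgX⟩ := hinf.exists_notMem_finite hX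
  rw [Set.mem_ofPred_eq, Set.not_infinite] at hgX
  have hfin : Finite (K a b g) := hgX.to_subtype
  have hsup := sup_top a b hgen N g hg
  have hq : Finite (G ⧸ N) := by
    refine Finite.of_surjective (fun k : K a b g => (QuotientGroup.mk (k : G) : G ⧸ N)) ?_
    intro q
    obtain ⟨x, rfl⟩ := QuotientGroup.mk_surjective q
    have hx : x ∈ K a b g ⊔ N := by
      rw [hsup]
      exact mem_top x
    rw [Subgroup.mem_sup_of_normal_right] at hx
    obtain ⟨k, hk, m, hm, hkm⟩ := hx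
    refine ⟨⟨k, hk⟩, ?_⟩
    rw [← hkm]
    simp only
    rw [QuotientGroup.mk_mul_of_mem _ hm]
  exact Subgroup.finiteIndex_of_finite_quotient

theorem tors_of_pow {G : Type*} [Group G] (F : Set G) (hF : F.Finite) (z : G)
    (h : ∀ n : ℕ, z ^ n ∈ F) : ∃ t : ℕ, 0 < t ∧ z ^ t = 1 := by
  have h1 : IsOfFinOrder z := by
    by_contra hne
    have h2 := injective_pow_iff_not_isOfFinOrder.mpr hne
    have h3 := Set.infinite_range_of_injective h2
    exact h3 (hF.subset (by rintro _ ⟨n, rfl⟩; exact h n))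
  exact isOfFinOrder_iff_pow_eq_one.mp h1

/-- the cocycle argument -/
theorem tors {G : Type*} [Group G] (a x n : G) (A : Subgroup G) [hAn : A.Normal]
    [A.FiniteIndex] (hcomm : ∀ x ∈ A, ∀ y ∈ A, x * y = y * x) (hn : n ∈ A)
    (K₁ K₂ : Subgroup G) (h₁ : Finite K₁) (h₂ : Finite K₂) (ha₁ : a ∈ K₁) (ha₂ : a ∈ K₂)
    (hx₁ : x ∈ K₁) (hx₂ : x * n ∈ K₂) (hs₁ : K₁ ⊔ A = ⊤) (hs₂ : K₂ ⊔ A = ⊤)
    (hCa : {c : G | c * a = a * c}.Finite) : ∃ s : ℕ, 0 < s ∧ n ^ s = 1 := by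
  classical
  let _ : CommGroup A := { (inferInstance : Group A) with
    mul_comm := fun x y => Subtype.ext (hcomm x x.2 y y.2) }
  have hsur : ∀ K₀ : Subgroup G, K₀ ⊔ A = ⊤ → ∀ q : G ⧸ A, ∃ k ∈ K₀, (k : G ⧸ A) = q := by
    intro K₀ hs q
    obtain ⟨y, rfl⟩ := QuotientGroup.mk_surjective q
    have hy : y ∈ K₀ ⊔ A := by
      rw [hs]
      exact mem_top y
    rw [Subgroup.mem_sup_of_normal_right] at hy
    obtain ⟨k, hk, m, hm, hkm⟩ := hy
    refine ⟨k, hk, ?_⟩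
    rw [← hkm, QuotientGroup.mk_mul_of_mem _ hm]
  choose k hk hkq using hsur K₁ hs₁
  choose k' hk' hkq' using hsur K₂ hs₂
  set e : ℕ := Nat.card K₁ * Nat.card K₂ with he
  have he0 : 0 < e := Nat.mul_pos Nat.card_pos Nat.card_pos
  have hp₁ : ∀ l ∈ K₁, l ^ e = 1 := by
    intro l hl
    have h1 : (⟨l, hl⟩ : K₁) ^ Nat.card K₁ = 1 := pow_card_eq_one'
    have h2 : l ^ Nat.card K₁ = 1 := congrArg Subtype.val h1
    rw [he, pow_mul, h2, one_pow]
  have hp₂ : ∀ l ∈ K₂, l ^ e = 1 := by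
    intro l hl
    have h1 : (⟨l, hl⟩ : K₂) ^ Nat.card K₂ = 1 := pow_card_eq_one'
    have h2 : l ^ Nat.card K₂ = 1 := congrArg Subtype.val h1
    rw [he, mul_comm, pow_mul, h2, one_pow]
  have hmemA : ∀ u v : G, (u : G ⧸ A) = v → u⁻¹ * v ∈ A := fun u v h => QuotientGroup.eq.mp h
  have hmulpow : ∀ u ∈ A, ∀ v ∈ A, ∀ m : ℕ, (u * v) ^ m = u ^ m * v ^ m := by
    intro u hu v hv m
    exact (show Commute u v from hcomm u hu v hv).mul_pow m
  let c : G ⧸ A → A := fun q => ⟨(k q)⁻¹ * k' q, hmemA _ _ ((hkq q).trans (hkq' q).symm)⟩ ^ e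
  have hc : ∀ q, (c q : G) = ((k q)⁻¹ * k' q) ^ e := fun q => rfl
  have hcw : ∀ (q : G ⧸ A) (u v : G), u ∈ K₁ → v ∈ K₂ → (u : G ⧸ A) = q → (v : G ⧸ A) = q →
      (c q : G) = (u⁻¹ * v) ^ e := by
    intro q u v hu hv huq hvq
    have h1 : (k q)⁻¹ * u ∈ A := hmemA _ _ ((hkq q).trans huq.symm)
    have h2 : (k' q)⁻¹ * v ∈ A := hmemA _ _ ((hkq' q).trans hvq.symm)
    have h3 : (k q)⁻¹ * k' q ∈ A := hmemA _ _ ((hkq q).trans (hkq' q).symm)
    have h4 : u⁻¹ * v = ((k q)⁻¹ * u)⁻¹ * (((k q)⁻¹ * k' q) * ((k' q)⁻¹ * v)) := by group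
    rw [h4, hmulpow _ (inv_mem h1) _ (mul_mem h3 h2), hmulpow _ h3 _ h2, inv_pow,
      hp₁ _ (mul_mem (inv_mem (hk q)) hu), hp₂ _ (mul_mem (inv_mem (hk' q)) hv), hc]
    simp
  have hft : Fintype (G ⧸ A) := Fintype.ofFinite _
  set z : A := ∏ q, c q with hz
  have hprod : ∀ p p' : G, p ∈ K₁ → p' ∈ K₂ → (p : G ⧸ A) = p' →
      (z : G) = p⁻¹ * z * p * ((p⁻¹ * p') ^ e) ^ Fintype.card (G ⧸ A) := by
    intro p p' hp hp' hpp
    have hw : p⁻¹ * p' ∈ A := hmemA _ _ hpp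
    have hconj : ∀ u ∈ A, p⁻¹ * u * p ∈ A := by
      intro u hu
      have := hAn.conj_mem u hu p⁻¹
      rwa [inv_inv] at this
    have h1 : ∀ q, (c (q * (p : G ⧸ A)) : G) = p⁻¹ * c q * p * (p⁻¹ * p') ^ e := by
      intro q
      have h2 := hcw (q * (p : G ⧸ A)) (k q * p) (k' q * p') (mul_mem (hk q) hp)
        (mul_mem (hk' q) hp') (by rw [QuotientGroup.mk_mul, hkq])
        (by rw [QuotientGroup.mk_mul, hkq', hpp])
      have h3 : (k q)⁻¹ * k' q ∈ A := hmemA _ _ ((hkq q).trans (hkq' q).symm)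
      have h4 : (k q * p)⁻¹ * (k' q * p') = (p⁻¹ * ((k q)⁻¹ * k' q) * p) * (p⁻¹ * p') := by group
      have h5 : (p⁻¹ * ((k q)⁻¹ * k' q) * p) ^ e = p⁻¹ * ((k q)⁻¹ * k' q) ^ e * p := by
        have := conj_pow (i := e) (a := p⁻¹) (b := (k q)⁻¹ * k' q)
        rwa [inv_inv] at this
      rw [h2, h4, hmulpow _ (hconj _ h3) _ hw, h5, hc]
    have h2 : ∀ s : Finset (G ⧸ A), ((∏ q ∈ s, c (q * (p : G ⧸ A)) : A) : G) =
        p⁻¹ * ((∏ q ∈ s, c q : A) : G) * p * ((p⁻¹ * p') ^ e) ^ s.card := by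
      intro s
      induction s using Finset.induction_on with
      | empty => simp
      | @insert q s hq ih =>
        rw [Finset.prod_insert hq, Finset.prod_insert hq, Finset.card_insert_of_notMem hq,
          Subgroup.coe_mul, Subgroup.coe_mul, ih, h1]
        have h3 := hcomm _ (pow_mem hw e) _ (hconj _ (∏ q ∈ s, c q : A).2)
        calc p⁻¹ * (c q : G) * p * (p⁻¹ * p') ^ e *
              (p⁻¹ * ((∏ q ∈ s, c q : A) : G) * p * ((p⁻¹ * p') ^ e) ^ s.card)
            = p⁻¹ * (c q : G) * p * ((p⁻¹ * p') ^ e *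
              (p⁻¹ * ((∏ q ∈ s, c q : A) : G) * p)) * ((p⁻¹ * p') ^ e) ^ s.card := by
                simp only [mul_assoc]
          _ = p⁻¹ * (c q : G) * p * ((p⁻¹ * ((∏ q ∈ s, c q : A) : G) * p) *
              (p⁻¹ * p') ^ e) * ((p⁻¹ * p') ^ e) ^ s.card := by rw [h3]
          _ = p⁻¹ * ((c q : G) * ((∏ q ∈ s, c q : A) : G)) * p *
              ((p⁻¹ * p') ^ e) ^ (s.card + 1) := by
                rw [pow_succ' ((p⁻¹ * p') ^ e) s.card]
                group
    have h3 := h2 Finset.univ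
    have h4 : ∏ q, c (q * (p : G ⧸ A)) = z := by
      rw [hz]
      exact Equiv.prod_comp (Equiv.mulRight (p : G ⧸ A)) c
    rw [h4, ← hz, Finset.card_univ] at h3
    exact h3
  -- `z` commutes with `a`
  have hza : (z : G) * a = a * z := by
    have h1 := hprod a a ha₁ ha₂ rfl
    rw [inv_mul_cancel, one_pow, one_pow, mul_one] at h1
    calc (z : G) * a = a * (a⁻¹ * z * a) := by group
      _ = a * z := by rw [← h1]
  obtain ⟨t, ht, hzt⟩ := tors_of_pow _ hCa (z : G) (fun m => by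
    rw [Set.mem_ofPred_eq]
    exact (show Commute (z : G) a from hza).pow_left m)
  have h1 := hprod x (x * n) hx₁ hx₂ (by rw [QuotientGroup.mk_mul_of_mem _ hn])
  rw [inv_mul_cancel_left] at h1
  have hconj : x⁻¹ * (z : G)⁻¹ * x ∈ A := by
    have := hAn.conj_mem _ (inv_mem z.2) x⁻¹
    rwa [inv_inv] at this
  have h2 : (n ^ e) ^ Fintype.card (G ⧸ A) = (x⁻¹ * (z : G)⁻¹ * x) * z := by
    have h3 : (x⁻¹ * (z : G)⁻¹ * x) * (x⁻¹ * z * x * (n ^ e) ^ Fintype.card (G ⧸ A)) =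
        (n ^ e) ^ Fintype.card (G ⧸ A) := by group
    rw [← h1] at h3
    exact h3.symm
  have h3 : ((n ^ e) ^ Fintype.card (G ⧸ A)) ^ t = 1 := by
    have h4 : (x⁻¹ * (z : G)⁻¹ * x) ^ t = x⁻¹ * ((z : G)⁻¹) ^ t * x := by
      have := conj_pow (i := t) (a := x⁻¹) (b := (z : G)⁻¹)
      rwa [inv_inv] at this
    rw [h2, hmulpow _ hconj _ z.2, h4, inv_pow, hzt]
    group
  refine ⟨e * Fintype.card (G ⧸ A) * t, ?_, ?_⟩
  · have : 0 < Fintype.card (G ⧸ A) := Fintype.card_pos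
    positivity
  · rw [pow_mul, pow_mul]
    exact h3

/-- the virtually abelian case -/
theorem va {G : Type*} [Group G] [Infinite G] (a b : G) (hgen : closure {a, b} = ⊤)
    (hX : {g : G | (K a b g : Set G).Infinite}.Finite) (A : Subgroup G) (hAn : A.Normal)
    (hAf : A.FiniteIndex) (hcomm : ∀ x ∈ A, ∀ y ∈ A, x * y = y * x) : False := by
  obtain ⟨hCa, hCb⟩ := cent_fin a b hgen hX
  have hAinf := inf_set A hAf
  have htors : ∀ h ∈ A, ∃ s : ℕ, 0 < s ∧ h ^ s = 1 := by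
    intro h hh
    set X : Set G := {g : G | (K a b g : Set G).Infinite} with hXdef
    have hXfin : ∀ g, g ∉ X → Finite (K a b g) := by
      intro g hg
      rw [hXdef, Set.mem_ofPred_eq, Set.not_infinite] at hg
      exact hg.to_subtype
    have hY : (X ∪ {g | h * g ∈ X}).Finite :=
      hX.union (hX.preimage ((mul_right_injective h).injOn))
    obtain ⟨g', hg', hgY⟩ := hAinf.exists_notMem_finite hY
    have hg'X : g' ∉ X := fun h1 => hgY (Or.inl h1)
    have hgX : h * g' ∉ X := fun h1 => hgY (Or.inr h1)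
    have hg'A : g' ∈ A := hg'
    have hhg : h * g' ∈ A := mul_mem hh hg'A
    have hbh : b⁻¹ * h * b ∈ A := by
      have := hAn.conj_mem h hh b⁻¹
      rwa [inv_inv] at this
    have e : ((h * g')⁻¹ * b * (h * g'))⁻¹ * (g'⁻¹ * b * g') = (b⁻¹ * h * b) * h⁻¹ := by
      have e1 : (b⁻¹ * h * b) * g' = g' * (b⁻¹ * h * b) := hcomm _ hbh _ hg'A
      have e2 : h⁻¹ * g' = g' * h⁻¹ := hcomm _ (inv_mem hh) _ hg'A
      calc ((h * g')⁻¹ * b * (h * g'))⁻¹ * (g'⁻¹ * b * g')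
          = g'⁻¹ * (h⁻¹ * ((b⁻¹ * h * b) * g')) := by group
        _ = g'⁻¹ * ((h⁻¹ * g') * (b⁻¹ * h * b)) := by rw [e1]; group
        _ = h⁻¹ * (b⁻¹ * h * b) := by rw [e2]; group
        _ = (b⁻¹ * h * b) * h⁻¹ := hcomm _ (inv_mem hh) _ hbh
    obtain ⟨s, hs, hs'⟩ := tors a ((h * g')⁻¹ * b * (h * g')) ((b⁻¹ * h * b) * h⁻¹) A hcomm
      (mul_mem hbh (inv_mem hh)) (K a b (h * g')) (K a b g') (hXfin _ hgX) (hXfin _ hg'X)
      (subset_closure (by simp)) (subset_closure (by simp)) (subset_closure (by simp))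
      (by
        rw [← e, mul_inv_cancel_left]
        exact subset_closure (by simp))
      (sup_top a b hgen A _ hhg) (sup_top a b hgen A _ hg'A) hCa
    have hco : Commute (b⁻¹ * h * b) h⁻¹ := hcomm _ hbh _ (inv_mem hh)
    rw [hco.mul_pow] at hs'
    have e3 : (b⁻¹ * h * b) ^ s = b⁻¹ * h ^ s * b := by
      have := conj_pow (i := s) (a := b⁻¹) (b := h)
      rwa [inv_inv] at this
    rw [e3, inv_pow, mul_inv_eq_one] at hs'
    have e4 : h ^ s * b = b * h ^ s := by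
      calc h ^ s * b = b * (b⁻¹ * h ^ s * b) := by group
        _ = b * h ^ s := by rw [hs']
    obtain ⟨t, ht, hzt⟩ := tors_of_pow _ hCb (h ^ s) (fun m => by
      rw [Set.mem_ofPred_eq]
      exact (show Commute (h ^ s) b from e4).pow_left m)
    refine ⟨s * t, by positivity, ?_⟩
    rw [pow_mul]
    exact hzt
  have hfg : Group.FG G := by
    rw [Group.fg_iff]
    exact ⟨{a, b}, hgen, by simp⟩
  have hNfg : Group.FG A := inferInstance
  let _ : CommGroup A := { (inferInstance : Group A) with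
    mul_comm := fun x y => Subtype.ext (hcomm x x.2 y y.2) }
  have hfin : Finite A := by
    refine CommGroup.finite_of_fg_isMulTorsion A fun x => ?_
    obtain ⟨s, hs, hs'⟩ := htors x x.2
    exact isOfFinOrder_iff_pow_eq_one.mpr ⟨s, hs, Subtype.ext hs'⟩
  exact hAinf (Set.toFinite _)

end Pool.Agent.TH784.RF
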