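import Mathlib
import Pool.Agent.TH784.RF.VA

set_option autoImplicit false

namespace Pool.Agent.TH784.RF

open Subgroup

open scoped commutatorElement

theorem quot_gen {G : Type*} [Group G] (a b : G) (hgen : closure {a, b} = ⊤)
    (N : Subgroup G) [N.Normal] : closure {(a : G ⧸ N), (b : G ⧸ N)} = ⊤ := by
  have h1 : (closure {a, b}).map (QuotientGroup.mk' N) = closure {(a : G ⧸ N), (b : G ⧸ N)} := by
    rw [MonoidHom.map_closure, Set.image_pair]
    rfl
  rw [← h1, hgen]
  exact Subgroup.map_top_of_surjective _ (QuotientGroup.mk'_surjective N)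

theorem quot_fin {G : Type*} [Group G] (a b : G)
    (hX : {g : G | (K a b g : Set G).Infinite}.Finite) (N : Subgroup G) [N.Normal] :
    {q : G ⧸ N | (K (a : G ⧸ N) (b : G ⧸ N) q : Set (G ⧸ N)).Infinite}.Finite := by
  refine (hX.image (fun g : G => (g : G ⧸ N))).subset ?_
  intro q hq
  obtain ⟨g, rfl⟩ := QuotientGroup.mk_surjective q
  refine ⟨g, ?_, rfl⟩
  rw [Set.mem_ofPred_eq] at hq ⊢
  intro hfin
  apply hq
  have h1 : (K a b g).map (QuotientGroup.mk' N) = K (a : G ⧸ N) (b : G ⧸ N) (g : G ⧸ N) := by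
    rw [K, K, MonoidHom.map_closure, Set.image_pair]
    rfl
  rw [← h1, Subgroup.coe_map]
  exact hfin.image _

/-- the virtually solvable case -/
theorem vs {G : Type*} [Group G] [Infinite G] (a b : G) (hgen : closure {a, b} = ⊤)
    (hX : {g : G | (K a b g : Set G).Infinite}.Finite) (H : Subgroup G)
    (hHf : H.FiniteIndex) (hHs : Group.IsSolvable H) : False := by
  classical
  have := hHs
  set R := H.normalCore with hR
  have hRs : Group.IsSolvable R :=
    Group.isSolvable_of_isSolvable_injective (Subgroup.inclusion_injective H.normalCore_le)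
  have hRf : R.FiniteIndex := inferInstance
  have hRinf := inf_set R hRf
  set D : ℕ → Subgroup G := fun i => (derivedSeries R i).map R.subtype with hD
  have hD0 : D 0 = R := by
    rw [hD]
    simp only [derivedSeries_zero]
    rw [← MonoidHom.range_eq_map, Subgroup.range_subtype]
  have hDs : ∀ i, D (i + 1) = ⁅D i, D i⁆ := by
    intro i
    simp only [hD]
    rw [derivedSeries_succ, Subgroup.map_commutator]
  have hDn : ∀ i, (D i).Normal := by
    intro i
    induction i with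
    | zero =>
      rw [hD0]
      exact H.normalCore_normal
    | succ i ih =>
      rw [hDs]
      exact Subgroup.commutator_normal _ _
  have hex : ∃ i, (D i : Set G).Finite := by
    obtain ⟨n, hn⟩ := hRs.solvable
    refine ⟨n, ?_⟩
    simp only [hD]
    rw [hn, Subgroup.map_bot]
    exact Set.finite_singleton 1
  obtain ⟨j, hj⟩ : ∃ j, Nat.find hex = j + 1 := by
    refine ⟨Nat.find hex - 1, ?_⟩
    have : Nat.find hex ≠ 0 := by
      intro h0
      have h1 := Nat.find_spec hex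
      rw [h0, hD0] at h1
      exact hRinf h1
    omega
  have hF : (D (j + 1) : Set G).Finite := by
    have := Nat.find_spec hex
    rwa [hj] at this
  have hA : (D j : Set G).Infinite := Nat.find_min hex (by omega)
  have hAf : (D j).FiniteIndex := normal_fin a b hgen hX (D j) (hDn j) hA
  have hFn : (D (j + 1)).Normal := hDn (j + 1)
  have hFfin : Finite (D (j + 1)) := hF.to_subtype
  have hAn := hDn j
  have hGinf : Infinite (G ⧸ D (j + 1)) := by
    rw [← not_finite_iff_infinite]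
    intro hfin
    have h1 : (D (j + 1)).FiniteIndex := Subgroup.finiteIndex_of_finite_quotient
    exact not_finite_iff_infinite.mpr ‹Infinite G› (fin_of _ h1 hFfin)
  refine va (a : G ⧸ D (j + 1)) (b : G ⧸ D (j + 1)) (quot_gen a b hgen _) (quot_fin a b hX _)
    ((D j).map (QuotientGroup.mk' (D (j + 1))))
    (Subgroup.Normal.map hAn _ (QuotientGroup.mk'_surjective _)) ?_ ?_
  · refine ⟨fun h0 => ?_⟩
    have h1 := (D j).index_map_dvd (QuotientGroup.mk'_surjective (D (j + 1)))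
    rw [h0, zero_dvd_iff] at h1
    exact hAf.index_ne_zero h1
  · rintro _ ⟨x, hx, rfl⟩ _ ⟨y, hy, rfl⟩
    change ((x * y : G) : G ⧸ D (j + 1)) = ((y * x : G) : G ⧸ D (j + 1))
    rw [QuotientGroup.eq, hDs]
    have h1 : (x * y)⁻¹ * (y * x) = ⁅y⁻¹, x⁻¹⁆ := by
      rw [commutatorElement_def]
      group
    rw [h1]
    exact Subgroup.commutator_mem_commutator (inv_mem hy) (inv_mem hx)

/-- fixed-point-free elements of order 3: every element `z a` is a conjugate of `a` -/
theorem fpf_conj {G : Type*} [Group G] (a : G) (L : Subgroup G) (hL : Finite L)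
    (hnorm : ∀ x ∈ L, a * x * a⁻¹ ∈ L) (hc : ∀ x ∈ L, x * a = a * x → x = 1) (z : G)
    (hz : z ∈ L) : ∃ v ∈ L, z * a = v⁻¹ * a * v := by
  have hmem : ∀ x : L, (x : G)⁻¹ * (a * x * a⁻¹) ∈ L := fun x =>
    mul_mem (inv_mem x.2) (hnorm x x.2)
  let θ : L → L := fun x => ⟨(x : G)⁻¹ * (a * x * a⁻¹), hmem x⟩
  have hinj : Function.Injective θ := by
    intro x y h
    have h1 : (x : G)⁻¹ * (a * x * a⁻¹) = (y : G)⁻¹ * (a * y * a⁻¹) := congrArg Subtype.val h
    have h2 : ((y : G) * (x : G)⁻¹) * a = a * ((y : G) * (x : G)⁻¹) := by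
      calc ((y : G) * (x : G)⁻¹) * a
          = (y : G) * ((x : G)⁻¹ * (a * x * a⁻¹)) * (a * (x : G)⁻¹) := by group
        _ = (y : G) * ((y : G)⁻¹ * (a * y * a⁻¹)) * (a * (x : G)⁻¹) := by rw [h1]
        _ = a * ((y : G) * (x : G)⁻¹) := by group
    have h3 := hc _ (mul_mem y.2 (inv_mem x.2)) h2
    rw [mul_inv_eq_one] at h3
    exact Subtype.ext h3.symm
  obtain ⟨x, hx⟩ := (Finite.injective_iff_surjective.mp hinj) ⟨z, hz⟩
  have h1 : (x : G)⁻¹ * (a * x * a⁻¹) = z := congrArg Subtype.val hx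
  refine ⟨x, x.2, ?_⟩
  rw [← h1]
  group

theorem fpf_cube {G : Type*} [Group G] (a : G) (ha : a * a * a = 1) (L : Subgroup G)
    (hL : Finite L) (hnorm : ∀ x ∈ L, a * x * a⁻¹ ∈ L) (hc : ∀ x ∈ L, x * a = a * x → x = 1)
    (z : G) (hz : z ∈ L) : (z * a) * (z * a) * (z * a) = 1 := by
  obtain ⟨v, _, h⟩ := fpf_conj a L hL hnorm hc z hz
  rw [h]
  calc v⁻¹ * a * v * (v⁻¹ * a * v) * (v⁻¹ * a * v) = v⁻¹ * (a * a * a) * v := by group
    _ = 1 := by rw [ha]; group

/-- the hypothesis for `a⁻¹` -/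
theorem inv_hyp {G : Type*} [Group G] (a : G) (ha : a * a * a = 1) (L : Subgroup G)
    (hnorm : ∀ x ∈ L, a * x * a⁻¹ ∈ L) (hc : ∀ x ∈ L, x * a = a * x → x = 1) :
    a⁻¹ * a⁻¹ * a⁻¹ = 1 ∧ (∀ x ∈ L, a⁻¹ * x * a⁻¹⁻¹ ∈ L) ∧
      (∀ x ∈ L, x * a⁻¹ = a⁻¹ * x → x = 1) := by
  have h2 : a⁻¹ = a * a := inv_eq_of_mul_eq_one_left (by rw [ha])
  refine ⟨?_, ?_, ?_⟩
  · have : a⁻¹ * a⁻¹ * a⁻¹ = (a * a * a)⁻¹ := by group
    rw [this, ha, inv_one]
  · intro x hx
    have h3 := hnorm _ (hnorm x hx)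
    have h4 : a⁻¹ * x * a⁻¹⁻¹ = a * (a * x * a⁻¹) * a⁻¹ := by
      calc a⁻¹ * x * a⁻¹⁻¹ = a⁻¹ * x * (a⁻¹)⁻¹ := rfl
        _ = (a * a) * x * (a * a)⁻¹ := by rw [← h2]
        _ = a * (a * x * a⁻¹) * a⁻¹ := by group
    rw [h4]
    exact h3
  · intro x hx h
    apply hc x hx
    calc x * a = a * (a⁻¹ * x) * a := by group
      _ = a * (x * a⁻¹) * a := by rw [h]
      _ = a * x := by group

theorem fpf_comm {G : Type*} [Group G] (a : G) (ha : a * a * a = 1) (L : Subgroup G)
    (hL : Finite L) (hnorm : ∀ x ∈ L, a * x * a⁻¹ ∈ L) (hc : ∀ x ∈ L, x * a = a * x → x = 1)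
    (z : G) (hz : z ∈ L) : z * (a * z * a⁻¹) = (a * z * a⁻¹) * z := by
  obtain ⟨ha', hnorm', hc'⟩ := inv_hyp a ha L hnorm hc
  have h2 : a⁻¹ = a * a := inv_eq_of_mul_eq_one_left (by rw [ha])
  -- `w = a⁻¹ z a`, so `w₁ = z` and `w₂ = a z a⁻¹`
  have hw : a⁻¹ * z * a ∈ L := by
    have := hnorm' z hz
    rwa [inv_inv] at this
  have h3 := fpf_cube a ha L hL hnorm hc _ hw
  have h4 := fpf_cube a⁻¹ ha' L hL hnorm' hc' _ hw
  have e3 : (a⁻¹ * z * a * a) * (a⁻¹ * z * a * a) * (a⁻¹ * z * a * a) =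
      (a⁻¹ * z * a) * (z * (a * z * a⁻¹)) * (a * a * a) := by group
  have e4 : (a⁻¹ * z * a * a⁻¹) * (a⁻¹ * z * a * a⁻¹) * (a⁻¹ * z * a * a⁻¹) =
      (a⁻¹ * z * a) * ((a * z * a⁻¹) * z) * (a⁻¹ * a⁻¹ * a⁻¹) := by
    have h5 : a⁻¹ * a⁻¹ * z = (a * z * a⁻¹) * (a⁻¹ * a⁻¹) := by
      calc a⁻¹ * a⁻¹ * z = (a⁻¹ * a⁻¹ * a⁻¹) * a * z := by group
        _ = a * z * ((a⁻¹ * a⁻¹ * a⁻¹)) := by rw [ha']; group
        _ = (a * z * a⁻¹) * (a⁻¹ * a⁻¹) := by group
    have h6 : a⁻¹ * z = (a⁻¹ * z * a) * a⁻¹ := by group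
    calc (a⁻¹ * z * a * a⁻¹) * (a⁻¹ * z * a * a⁻¹) * (a⁻¹ * z * a * a⁻¹)
        = (a⁻¹ * z * a) * (a⁻¹ * a⁻¹ * z) * (a⁻¹ * z) := by group
      _ = (a⁻¹ * z * a) * ((a * z * a⁻¹) * (a⁻¹ * a⁻¹)) * (a⁻¹ * z) := by rw [h5]
      _ = (a⁻¹ * z * a) * (a * z * a⁻¹) * (a⁻¹ * a⁻¹ * a⁻¹) * z := by group
      _ = (a⁻¹ * z * a) * ((a * z * a⁻¹) * z) * (a⁻¹ * a⁻¹ * a⁻¹) := by rw [ha']; group
  rw [e3, ha, mul_one] at h3
  rw [e4, ha', mul_one] at h4
  exact mul_left_cancel (h3.trans h4.symm)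

theorem fpf_comm' {G : Type*} [Group G] (a : G) (ha : a * a * a = 1) (L : Subgroup G)
    (hL : Finite L) (hnorm : ∀ x ∈ L, a * x * a⁻¹ ∈ L) (hc : ∀ x ∈ L, x * a = a * x → x = 1)
    (z : G) (hz : z ∈ L) (u : G) (hu : u ∈ L) :
    Commute z (u * (a * z * a⁻¹) * u⁻¹) := by
  have h1 : (u * a) * (u * a) * (u * a) = 1 := fpf_cube a ha L hL hnorm hc u hu
  have h2 : ∀ x ∈ L, (u * a) * x * (u * a)⁻¹ ∈ L := by
    intro x hx
    have : (u * a) * x * (u * a)⁻¹ = u * (a * x * a⁻¹) * u⁻¹ := by group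
    rw [this]
    exact mul_mem (mul_mem hu (hnorm x hx)) (inv_mem hu)
  obtain ⟨v, hv, hva⟩ := fpf_conj a L hL hnorm hc u hu
  have h3 : ∀ x ∈ L, x * (u * a) = (u * a) * x → x = 1 := by
    intro x hx h
    rw [hva] at h
    have h4 : (v * x * v⁻¹) * a = a * (v * x * v⁻¹) := by
      calc (v * x * v⁻¹) * a = v * (x * (v⁻¹ * a * v)) * v⁻¹ := by group
        _ = v * (v⁻¹ * a * v * x) * v⁻¹ := by rw [h]
        _ = a * (v * x * v⁻¹) := by group
    have h5 := hc _ (mul_mem (mul_mem hv hx) (inv_mem hv)) h4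
    calc x = v⁻¹ * (v * x * v⁻¹) * v := by group
      _ = 1 := by rw [h5]; group
  have h4 := fpf_comm (u * a) h1 L hL h2 h3 z hz
  have h5 : (u * a) * z * (u * a)⁻¹ = u * (a * z * a⁻¹) * u⁻¹ := by group
  rw [h5] at h4
  exact h4

theorem fpf_conj_comm {G : Type*} [Group G] (a : G) (ha : a * a * a = 1) (L : Subgroup G)
    (hL : Finite L) (hnorm : ∀ x ∈ L, a * x * a⁻¹ ∈ L) (hc : ∀ x ∈ L, x * a = a * x → x = 1)
    (z : G) (hz : z ∈ L) (v : G) (hv : v ∈ L) : Commute z (v * z * v⁻¹) := by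
  obtain ⟨ha', hnorm', hc'⟩ := inv_hyp a ha L hnorm hc
  have h1 := fpf_comm' a ha L hL hnorm hc z hz v hv
  have h2 := fpf_comm' a⁻¹ ha' L hL hnorm' hc' z hz v hv
  have h3 := fpf_cube a ha L hL hnorm hc z hz
  have h4 : (v * (a * z * a⁻¹) * v⁻¹) * (v * (a⁻¹ * z * a⁻¹⁻¹) * v⁻¹) = (v * z * v⁻¹)⁻¹ := by
    have h5 : (z * a) * (z * a) * (z * a) = z * ((a * z * a⁻¹) * (a⁻¹ * z * a)) := by
      calc (z * a) * (z * a) * (z * a) = z * (a * z * a⁻¹) * (a * a * a) * (a⁻¹ * z * a) := by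
            group
        _ = z * ((a * z * a⁻¹) * (a⁻¹ * z * a)) := by rw [ha]; group
    rw [h5] at h3
    have h6 : (a * z * a⁻¹) * (a⁻¹ * z * a) = z⁻¹ := eq_inv_of_mul_eq_one_right h3
    calc (v * (a * z * a⁻¹) * v⁻¹) * (v * (a⁻¹ * z * a⁻¹⁻¹) * v⁻¹)
        = v * ((a * z * a⁻¹) * (a⁻¹ * z * a)) * v⁻¹ := by group
      _ = (v * z * v⁻¹)⁻¹ := by rw [h6]; group
  have h5 : Commute z (v * z * v⁻¹)⁻¹ := by
    rw [← h4]
    exact h1.mul_right h2
  have h6 := h5.inv_right
  rwa [inv_inv] at h6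


/-- a finitely generated group in which every element commutes with its conjugates is solvable -/
theorem solv_of_conj_comm : ∀ (n : ℕ) (H : Type) [Group H] (S : Finset H), S.card ≤ n →
    closure (S : Set H) = ⊤ → (∀ x y : H, Commute x (y * x * y⁻¹)) → Group.IsSolvable H := by
  classical
  intro n
  induction n with
  | zero =>
    intro H _ S hS hgen _
    have h1 : S = ∅ := Finset.card_eq_zero.mp (by omega)
    rw [h1, Finset.coe_empty, Subgroup.closure_empty] at hgen
    have h2 : ∀ x y : H, x * y = y * x := by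
      intro x y
      have hx : x = 1 := by
        have : x ∈ (⊥ : Subgroup H) := by
          rw [hgen]
          exact mem_top x
        exact mem_bot.mp this
      rw [hx, one_mul, mul_one]
    exact Group.isSolvable_of_comm h2
  | succ n ih =>
    intro H _ S hS hgen hP
    by_cases hS0 : S = ∅
    · exact ih H S (by rw [hS0, Finset.card_empty]; omega) hgen hP
    · obtain ⟨s, hs⟩ := Finset.nonempty_iff_ne_empty.mpr hS0
      set N : Subgroup H := normalClosure {s} with hN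
      have hcc : ∀ x ∈ Group.conjugatesOfSet ({s} : Set H),
          ∀ y ∈ Group.conjugatesOfSet ({s} : Set H), x * y = y * x := by
        intro x hx y hy
        rw [Group.mem_conjugatesOfSet_iff] at hx hy
        obtain ⟨u, hu, hx⟩ := hx
        obtain ⟨w, hw, hy⟩ := hy
        rw [Set.mem_singleton_iff] at hu hw
        rw [hu, isConj_iff] at hx
        rw [hw, isConj_iff] at hy
        obtain ⟨c, hc⟩ := hx
        obtain ⟨d, hd⟩ := hy
        have h1 := hP (c * s * c⁻¹) (d * c⁻¹)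
        have h2 : (d * c⁻¹) * (c * s * c⁻¹) * (d * c⁻¹)⁻¹ = d * s * d⁻¹ := by group
        rw [h2, hc, hd] at h1
        exact h1
      have hNc : ∀ x y : N, x * y = y * x := by
        intro x y
        have hx : (x : H) ∈ closure (Group.conjugatesOfSet ({s} : Set H)) := x.2
        have hy : (y : H) ∈ closure (Group.conjugatesOfSet ({s} : Set H)) := y.2
        apply Subtype.ext
        change (x : H) * y = y * x
        refine Subgroup.closure_induction₂ (p := fun x y _ _ => x * y = y * x)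
          (fun u v hu hv => hcc u hu v hv) ?_ ?_ ?_ ?_ ?_ ?_ hx hy
        · intro x _; simp
        · intro x _; simp
        · intro u v w _ _ _ h1 h2
          exact (show Commute (u * v) w from (show Commute u w from h1).mul_left h2)
        · intro u v w _ _ _ h1 h2
          exact ((show Commute w u from h1).mul_right h2)
        · intro u v _ _ h1
          exact (show Commute u v from h1).inv_left
        · intro u v _ _ h1
          exact (show Commute u v from h1).inv_right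
      have h1 : Group.IsSolvable N := Group.isSolvable_of_comm hNc
      have h2 : Group.IsSolvable (H ⧸ N) := by
        refine ih (H ⧸ N) ((S.erase s).image (fun x : H => (x : H ⧸ N))) ?_ ?_ ?_
        · refine le_trans Finset.card_image_le ?_
          rw [Finset.card_erase_of_mem hs]
          omega
        · rw [eq_top_iff]
          have h3 : (closure (S : Set H)).map (QuotientGroup.mk' N) = ⊤ := by
            rw [hgen]
            exact Subgroup.map_top_of_surjective _ (QuotientGroup.mk'_surjective N)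
          rw [← h3, MonoidHom.map_closure, closure_le]
          rintro _ ⟨x, hx, rfl⟩
          by_cases hxs : x = s
          · have h4 : QuotientGroup.mk' N x = 1 := by
              rw [QuotientGroup.mk'_apply, QuotientGroup.eq_one_iff, hxs]
              exact subset_normalClosure (Set.mem_singleton s)
            rw [h4]
            exact one_mem _
          · apply Subgroup.subset_closure
            rw [Finset.coe_image]
            exact ⟨x, Finset.mem_coe.mpr (Finset.mem_erase.mpr ⟨hxs, hx⟩), rfl⟩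
        · intro x y
          obtain ⟨u, rfl⟩ := QuotientGroup.mk_surjective x
          obtain ⟨v, rfl⟩ := QuotientGroup.mk_surjective y
          have h3 := hP u v
          exact h3.map (QuotientGroup.mk' N)
      exact Group.isSolvable_of_ker_le_range N.subtype (QuotientGroup.mk' N) (by simp)

/-- an element of order 3 in a residually finite group -/
theorem three {G : Type} [Group G] [Infinite G] (a b : G) (ha : a * a * a = 1)
    (hgen : closure {a, b} = ⊤) (hrf : ResFin G)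
    (hX : {g : G | (K a b g : Set G).Infinite}.Finite) : False := by
  classical
  obtain ⟨hCa, _⟩ := cent_fin a b hgen hX
  obtain ⟨N, hNn, hNf, hNa⟩ := avoid hrf _ hCa
  have hNca : ∀ x ∈ N, x * a = a * x → x = 1 := by
    intro x hx hxa
    by_contra h1
    exact hNa x hxa h1 hx
  have hP : ∀ x ∈ N, ∀ y ∈ N, Commute x (y * x * y⁻¹) := by
    intro x hx y hy
    by_contra hne
    have hne' : ⁅x, y * x * y⁻¹⁆ ≠ 1 := by
      intro h
      exact hne (commutatorElement_eq_one_iff_commute.mp h)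
    obtain ⟨M, hMn, hMf, hM⟩ := hrf _ hne'
    apply hM
    have hMN : (M ⊓ N).FiniteIndex := inferInstance
    obtain ⟨g, hg, hgX⟩ := (inf_set (M ⊓ N) hMN).exists_notMem_finite hX
    have hgMN : g ∈ M ⊓ N := hg
    rw [Set.mem_ofPred_eq, Set.not_infinite] at hgX
    have hsup := sup_top a b hgen (M ⊓ N) g hgMN
    have hrep : ∀ y ∈ N, ∃ k ∈ K a b g ⊓ N, (y : G ⧸ M) = (k : G ⧸ M) := by
      intro y hy
      have hyt : y ∈ K a b g ⊔ (M ⊓ N) := by
        rw [hsup]
        exact mem_top y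
      rw [Subgroup.mem_sup_of_normal_right] at hyt
      obtain ⟨k, hk, m, hm, hkm⟩ := hyt
      have hkN : k ∈ N := by
        have : k = y * m⁻¹ := by rw [← hkm]; group
        rw [this]
        exact mul_mem hy (inv_mem hm.2)
      refine ⟨k, ⟨hk, hkN⟩, ?_⟩
      rw [← hkm, QuotientGroup.mk_mul_of_mem _ hm.1]
    have haK : a ∈ K a b g := subset_closure (by simp)
    have hL : Finite (K a b g ⊓ N : Subgroup G) := (hgX.subset (fun x hx => hx.1)).to_subtype
    obtain ⟨k, hk, hkx⟩ := hrep x hx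
    obtain ⟨l, hl, hly⟩ := hrep y hy
    have hcom := fpf_conj_comm a ha (K a b g ⊓ N) hL
      (fun x hx => ⟨(K a b g).mul_mem ((K a b g).mul_mem haK hx.1) ((K a b g).inv_mem haK),
        hNn.conj_mem x hx.2 a⟩)
      (fun x hx hxa => hNca x hx.2 hxa) k hk l hl
    rw [← QuotientGroup.eq_one_iff]
    have h1 : ((⁅x, y * x * y⁻¹⁆ : G) : G ⧸ M) = ((⁅k, l * k * l⁻¹⁆ : G) : G ⧸ M) := by
      simp only [commutatorElement_def, QuotientGroup.mk_mul, QuotientGroup.mk_inv, hkx, hly]
    rw [h1, commutatorElement_eq_one_iff_commute.mpr hcom]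
    rfl
  have hfg : Group.FG G := by
    rw [Group.fg_iff]
    exact ⟨{a, b}, hgen, by simp⟩
  have hNfg : Group.FG N := inferInstance
  rw [Group.fg_iff'] at hNfg
  obtain ⟨n, S, hS, hSgen⟩ := hNfg
  have hNs : Group.IsSolvable N := by
    refine solv_of_conj_comm n N S (le_of_eq hS) hSgen ?_
    intro x y
    have h1 := hP x x.2 y y.2
    exact Subtype.ext h1
  exact vs a b hgen hX N hNf hNs

end Pool.Agent.TH784.RF
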