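import Mathlib

set_option autoImplicit false
set_option linter.style.haveILetI false

/-!
Finite fields from finitely generated domains, and torsion in congruence kernels.
-/

namespace Pool.Agent.TH784.RF

universe u v

theorem jac_int : IsJacobsonRing ℤ := by
  rw [isJacobsonRing_iff_prime_eq]
  intro P hP
  by_cases h : P = ⊥
  · subst h
    rw [eq_bot_iff]
    intro x hx
    rw [Ideal.mem_jacobson_bot] at hx
    have h1 := hx x
    rw [Int.isUnit_iff] at h1
    rw [Ideal.mem_bot]
    rcases h1 with h1 | h1
    · have : x * x = 0 := by linarith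
      exact mul_self_eq_zero.1 this
    · nlinarith [mul_self_nonneg x]
  · haveI : P.IsMaximal := hP.isMaximal h
    exact Ideal.jacobson_eq_self_of_isMaximal

theorem finite_of_fg (F : Type u) [Field F] [Module.Finite ℤ F] : Finite F := by
  obtain ⟨q, hq⟩ := CharP.exists F
  rcases CharP.char_is_prime_or_zero F q with hp | hp
  · haveI : Fact q.Prime := ⟨hp⟩
    let _ : Algebra (ZMod q) F := ZMod.algebra F q
    haveI : Module.Finite (ZMod q) F := Module.Finite.of_restrictScalars_finite ℤ (ZMod q) F
    exact Module.finite_of_finite (ZMod q)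
  · subst hp
    exfalso
    haveI : CharZero F := CharP.charP_to_charZero F
    haveI : Algebra.IsIntegral ℤ F := Algebra.IsIntegral.of_finite ℤ F
    have h1 : IsIntegral ℤ (algebraMap ℚ F (2 : ℚ)⁻¹) := Algebra.IsIntegral.isIntegral _
    have h2 : IsIntegral ℤ ((2 : ℚ)⁻¹) :=
      (isIntegral_algebraMap_iff (algebraMap ℚ F).injective).1 h1
    obtain ⟨z, hz⟩ := IsIntegrallyClosed.isIntegral_iff.1 h2
    have hz' : (z : ℚ) = (2 : ℚ)⁻¹ := by simpa using hz
    have h3 : (2 * z : ℤ) = 1 := by
      have : ((2 * z : ℤ) : ℚ) = 1 := by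
        push_cast
        rw [hz']; norm_num
      exact_mod_cast this
    omega

theorem residue_finite (R : Type u) [CommRing R] (hR : Algebra.FiniteType ℤ R) (m : Ideal R)
    (hm : m.IsMaximal) : Finite (R ⧸ m) := by
  let i1 : Field (R ⧸ m) := Ideal.Quotient.field m
  haveI := jac_int
  haveI := hR
  haveI : Algebra.FiniteType ℤ (R ⧸ m) :=
    Algebra.FiniteType.of_surjective (Ideal.Quotient.mkₐ ℤ m) (Ideal.Quotient.mkₐ_surjective ℤ m)
  have h2 : Module.Finite ℤ (R ⧸ m) :=
    @finite_of_finite_type_of_isJacobsonRing ℤ (R ⧸ m) _ i1 (Ideal.Quotient.algebra ℤ (I := m)) _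
      (inferInstance)
  exact finite_of_fg (R ⧸ m)

theorem ft {S : Type u} {A : Type v} [CommRing S] [CommRing A] [Algebra S A]
    (hS : Algebra.FiniteType ℤ S) (h : Algebra.FiniteType S A) : Algebra.FiniteType ℤ A :=
  Algebra.FiniteType.trans hS h

/-- a point of a finitely generated domain over a finite field which avoids a given element -/
theorem pt (S : Type u) [CommRing S] [IsDomain S] (hS : Algebra.FiniteType ℤ S) (s : S)
    (hs : s ≠ 0) : ∃ (k : Type u) (_ : Field k) (_ : Finite k) (θ : S →+* k), θ s ≠ 0 := by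
  have h1 : Algebra.FiniteType S (Localization.Away s) :=
    IsLocalization.finiteType_of_monoid_fg (Submonoid.powers s) _
  have h2' := ft hS h1
  have h3 : Function.Injective (algebraMap S (Localization.Away s)) :=
    IsLocalization.injective (Localization.Away s) (powers_le_nonZeroDivisors_of_noZeroDivisors hs)
  haveI : Nontrivial (Localization.Away s) := h3.nontrivial
  obtain ⟨m, hm⟩ := Ideal.exists_maximal (Localization.Away s)
  refine ⟨Localization.Away s ⧸ m, Ideal.Quotient.field m, residue_finite _ h2' m hm,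
    (Ideal.Quotient.mk m).comp (algebraMap S (Localization.Away s)), ?_⟩
  have h4 : IsUnit (algebraMap S (Localization.Away s) s) :=
    IsLocalization.Away.algebraMap_isUnit s
  have h5 : IsUnit ((Ideal.Quotient.mk m) (algebraMap S (Localization.Away s) s)) :=
    h4.map _
  haveI : Nontrivial (Localization.Away s ⧸ m) := Ideal.Quotient.nontrivial_iff.2 hm.ne_top
  exact h5.ne_zero

/-- matrices of order prime to the characteristic in a congruence kernel are trivial -/
theorem tors {S : Type u} [CommRing S] [IsDomain S] {k : Type v} [Field k] (θ : S →+* k) {n : ℕ}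
    (Y : Matrix (Fin n) (Fin n) S) (l : ℕ) (hl : θ (l : S) ≠ 0) (hY : Y ^ l = 1)
    (hθ : θ.mapMatrix Y = 1) : Y = 1 := by
  classical
  set W : Matrix (Fin n) (Fin n) S := ∑ i ∈ Finset.range l, Y ^ i with hW
  have h1 : (Y - 1) * W = 0 := by
    rw [hW, mul_geom_sum, hY, sub_self]
  have h2 : θ.mapMatrix W = (l : Matrix (Fin n) (Fin n) k) := by
    rw [hW, map_sum]
    simp only [map_pow, hθ, one_pow]
    rw [Finset.sum_const, Finset.card_range, nsmul_eq_mul, mul_one]
  have h3 : θ W.det = (l : k) ^ n := by
    rw [RingHom.map_det, h2]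
    have : (l : Matrix (Fin n) (Fin n) k) = (l : k) • (1 : Matrix (Fin n) (Fin n) k) := by
      rw [← nsmul_one, Nat.cast_smul_eq_nsmul]
    rw [this, Matrix.det_smul, Matrix.det_one, Fintype.card_fin, mul_one]
  have h4 : W.det ≠ 0 := by
    intro h
    rw [h, map_zero] at h3
    rw [map_natCast] at hl
    exact pow_ne_zero n hl h3.symm
  have h5 : W.det • (Y - 1) = 0 := by
    have h6 : (Y - 1) * (W * W.adjugate) = 0 := by
      rw [← mul_assoc, h1, zero_mul]
    rw [Matrix.mul_adjugate, Matrix.mul_smul, mul_one] at h6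
    exact h6
  have h7 : Y - 1 = 0 := by
    ext i j
    have h8 := congrFun (congrFun h5 i) j
    rw [Matrix.smul_apply, smul_eq_mul] at h8
    rcases mul_eq_zero.1 h8 with h9 | h9
    · exact absurd h9 h4
    · exact h9
  exact sub_eq_zero.1 h7

end Pool.Agent.TH784.RF
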