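import Mathlib

set_option autoImplicit false
set_option linter.style.haveILetI false

/-!
Representative functions on an infinite group: one of finite support is zero.
-/

namespace Pool.Agent.TH784.RF

variable {N : Type*} [Group N] {F : Type*} [Field F]

/-- translation of functions -/
def tr (h : N) : (N → F) →ₗ[F] (N → F) where
  toFun f := fun g => f (g * h)
  map_add' _ _ := rfl
  map_smul' _ _ := rfl

/-- representative functions -/
def Rep (f : N → F) : Prop :=
  ∃ V : Submodule F (N → F), V.FG ∧ f ∈ V ∧ ∀ h : N, V.map (tr h) ≤ V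

theorem Rep.add {f g : N → F} (hf : Rep f) (hg : Rep g) : Rep (f + g) := by
  obtain ⟨V, h1, h2, h3⟩ := hf
  obtain ⟨W, h4, h5, h6⟩ := hg
  refine ⟨V ⊔ W, h1.sup h4, ?_, ?_⟩
  · exact add_mem ((le_sup_left : V ≤ V ⊔ W) h2) ((le_sup_right : W ≤ V ⊔ W) h5)
  · intro h
    rw [Submodule.map_sup]
    exact sup_le_sup (h3 h) (h6 h)

theorem Rep.mul {f g : N → F} (hf : Rep f) (hg : Rep g) : Rep (f * g) := by
  obtain ⟨V, h1, h2, h3⟩ := hf
  obtain ⟨W, h4, h5, h6⟩ := hg
  refine ⟨V * W, h1.mul h4, Submodule.mul_mem_mul h2 h5, ?_⟩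
  intro h
  rw [Submodule.map_le_iff_le_comap]
  rw [Submodule.mul_le]
  intro v hv w hw
  rw [Submodule.mem_comap]
  have h7 : (tr h) (v * w) = tr h v * tr h w := rfl
  rw [h7]
  exact Submodule.mul_mem_mul (h3 h (Submodule.mem_map_of_mem hv))
    (h6 h (Submodule.mem_map_of_mem hw))

theorem Rep.const (c : F) : Rep (fun _ : N => c) := by
  refine ⟨Submodule.span F {fun _ => (1 : F)}, Submodule.fg_span (Set.finite_singleton _), ?_, ?_⟩
  · rw [Submodule.mem_span_singleton]
    refine ⟨c, ?_⟩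
    funext g
    simp
  · intro h
    rw [Submodule.map_span, Submodule.span_le]
    rintro _ ⟨v, hv, rfl⟩
    rw [Set.mem_singleton_iff] at hv
    subst hv
    exact Submodule.subset_span rfl

theorem Rep.sum {ι : Type*} (s : Finset ι) (f : ι → N → F) (h : ∀ i ∈ s, Rep (f i)) :
    Rep (fun g => ∑ i ∈ s, f i g) := by
  classical
  induction s using Finset.induction_on with
  | empty => simpa using Rep.const (0 : F)
  | @insert i s hi ih =>
    have h1 : (fun g => ∑ i ∈ insert i s, f i g) = f i + fun g => ∑ i ∈ s, f i g := by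
      funext g
      rw [Finset.sum_insert hi]
      rfl
    rw [h1]
    exact (h i (Finset.mem_insert_self _ _)).add
      (ih (fun j hj => h j (Finset.mem_insert_of_mem hj)))

theorem rep_zero [Infinite N] (f : N → F) (hf : Rep f) (hfin : {g | f g ≠ 0}.Finite) : f = 0 := by
  classical
  obtain ⟨V, h1, h2, h3⟩ := hf
  haveI : Module.Finite F V := Module.Finite.iff_fg.2 h1
  -- a finite set of points which separates `V`
  let U : Finset N → Submodule F (N → F) := fun E => V ⊓ ⨅ e ∈ E, LinearMap.ker (LinearMap.proj e)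
  have hUle : ∀ E, U E ≤ V := fun E => inf_le_left
  have hU : ∀ E v, v ∈ U E ↔ v ∈ V ∧ ∀ e ∈ E, v e = 0 := by
    intro E v
    simp only [U, Submodule.mem_inf, Submodule.mem_iInf, LinearMap.mem_ker, LinearMap.proj_apply]
  have hex : ∃ E : Finset N, ∀ v ∈ V, (∀ e ∈ E, v e = 0) → v = 0 := by
    obtain ⟨M, ⟨E, rfl⟩, hmin⟩ := IsArtinian.set_has_minimal (R := F) (M := V)
      (Set.range (fun E : Finset N => (U E).comap V.subtype)) ⟨_, ⟨∅, rfl⟩⟩
    refine ⟨E, fun v hv hvE => ?_⟩
    funext g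
    by_contra hg
    apply hmin _ ⟨insert g E, rfl⟩
    refine lt_of_le_of_ne ?_ ?_
    · intro w hw
      rw [Submodule.mem_comap, hU] at hw ⊢
      exact ⟨hw.1, fun e he => hw.2 e (Finset.mem_insert_of_mem he)⟩
    · intro heq
      have h4 : (⟨v, hv⟩ : V) ∈ (U E).comap V.subtype := by
        rw [Submodule.mem_comap, hU]
        exact ⟨hv, hvE⟩
      have heq' : (U (insert g E)).comap V.subtype = (U E).comap V.subtype := heq
      rw [← heq'] at h4
      rw [Submodule.mem_comap, hU] at h4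
      exact hg (h4.2 g (Finset.mem_insert_self _ _))
  obtain ⟨E, hE⟩ := hex
  have hB : (⋃ e ∈ E, (fun s => e⁻¹ * s) '' {g | f g ≠ 0}).Finite :=
    Set.Finite.biUnion E.finite_toSet (fun e _ => hfin.image _)
  obtain ⟨h, hh⟩ := hB.exists_notMem
  have h5 : tr h f = 0 := by
    refine hE _ (h3 h (Submodule.mem_map_of_mem h2)) ?_
    intro e he
    by_contra hne
    apply hh
    rw [Set.mem_iUnion₂]
    refine ⟨e, he, e * h, hne, ?_⟩
    change e⁻¹ * (e * h) = h
    rw [inv_mul_cancel_left]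
  funext g
  have h6 := congrFun h5 (g * h⁻¹)
  change f (g * h⁻¹ * h) = 0 at h6
  rw [inv_mul_cancel_right] at h6
  exact h6

/-- matrices of representative functions -/
def MRep {n : ℕ} (Φ : N → Matrix (Fin n) (Fin n) F) : Prop := ∀ i j, Rep (fun g => Φ g i j)

theorem MRep.mul {n : ℕ} {Φ Ψ : N → Matrix (Fin n) (Fin n) F} (h1 : MRep Φ) (h2 : MRep Ψ) :
    MRep (fun g => Φ g * Ψ g) := by
  intro i j
  have : (fun g => (Φ g * Ψ g) i j) = fun g => ∑ k ∈ Finset.univ, Φ g i k * Ψ g k j := by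
    funext g
    rw [Matrix.mul_apply]
  rw [this]
  exact Rep.sum _ _ (fun k _ => (h1 i k).mul (h2 k j))

theorem MRep.const {n : ℕ} (M : Matrix (Fin n) (Fin n) F) : MRep (fun _ : N => M) :=
  fun i j => Rep.const (M i j)

theorem MRep.right {n : ℕ} (ρ : N → Matrix (Fin n) (Fin n) F)
    (hρ : ∀ g h, ρ (g * h) = ρ g * ρ h) : MRep ρ := by
  intro i j
  refine ⟨Submodule.span F (Set.range (fun p : Fin n × Fin n => fun g => ρ g p.1 p.2)),
    Submodule.fg_span (Set.finite_range _), Submodule.subset_span ⟨(i, j), rfl⟩, ?_⟩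
  intro h
  rw [Submodule.map_span, Submodule.span_le]
  rintro _ ⟨v, ⟨p, rfl⟩, rfl⟩
  have h1 : (tr h) (fun g => ρ g p.1 p.2) =
      ∑ k ∈ Finset.univ, (ρ h k p.2) • (fun g => ρ g p.1 k) := by
    funext g
    change ρ (g * h) p.1 p.2 = _
    rw [hρ, Matrix.mul_apply, Finset.sum_apply]
    refine Finset.sum_congr rfl (fun k _ => ?_)
    rw [Pi.smul_apply, smul_eq_mul, mul_comm]
  rw [h1]
  exact Submodule.sum_mem _ (fun k _ => Submodule.smul_mem _ _ (Submodule.subset_span ⟨(p.1, k), rfl⟩))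

theorem MRep.left {n : ℕ} (ρ : N → Matrix (Fin n) (Fin n) F)
    (hρ : ∀ g h, ρ (g * h) = ρ h * ρ g) : MRep ρ := by
  intro i j
  refine ⟨Submodule.span F (Set.range (fun p : Fin n × Fin n => fun g => ρ g p.1 p.2)),
    Submodule.fg_span (Set.finite_range _), Submodule.subset_span ⟨(i, j), rfl⟩, ?_⟩
  intro h
  rw [Submodule.map_span, Submodule.span_le]
  rintro _ ⟨v, ⟨p, rfl⟩, rfl⟩
  have h1 : (tr h) (fun g => ρ g p.1 p.2) =
      ∑ k ∈ Finset.univ, (ρ h p.1 k) • (fun g => ρ g k p.2) := by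
    funext g
    change ρ (g * h) p.1 p.2 = _
    rw [hρ, Matrix.mul_apply, Finset.sum_apply]
    refine Finset.sum_congr rfl (fun k _ => ?_)
    rw [Pi.smul_apply, smul_eq_mul]
  rw [h1]
  exact Submodule.sum_mem _ (fun k _ => Submodule.smul_mem _ _ (Submodule.subset_span ⟨(k, p.2), rfl⟩))

end Pool.Agent.TH784.RF
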