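import Mathlib
import Pool.Agent.TH784.RF.Inv
import Pool.Agent.TH784.RF.LA
import Pool.Agent.TH784.RF.LB

set_option autoImplicit false
set_option linter.style.haveILetI false

/-!
Linear groups over fields of characteristic zero.
-/

namespace Pool.Agent.TH784.RF

open Subgroup

universe u v

/-- A finitely generated linear group in characteristic zero has a normal subgroup of finite index
without elements of finite order (Selberg). -/
theorem selberg {G : Type v} [Group G] (a b : G) (hgen : closure {a, b} = ⊤)
    {F : Type u} [Field F] [CharZero F] {n : ℕ} (ρ : G →* Matrix (Fin n) (Fin n) F)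
    (hρ : Function.Injective ρ) :
    ∃ N : Subgroup G, N.Normal ∧ N.FiniteIndex ∧ ∀ x ∈ N, IsOfFinOrder x → x = 1 := by
  classical
  let E : Set F := Set.range (fun p : Fin n × Fin n => ρ a p.1 p.2) ∪
    (Set.range (fun p : Fin n × Fin n => ρ a⁻¹ p.1 p.2) ∪
    (Set.range (fun p : Fin n × Fin n => ρ b p.1 p.2) ∪
    Set.range (fun p : Fin n × Fin n => ρ b⁻¹ p.1 p.2)))
  have hE : E.Finite := (Set.finite_range _).union ((Set.finite_range _).union
    ((Set.finite_range _).union (Set.finite_range _)))
  let S := Algebra.adjoin ℤ E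
  have hft : Algebra.FiniteType ℤ S := Algebra.FiniteType.adjoin_of_finite hE
  have hent : ∀ g : G, (∀ i j, ρ g i j ∈ S) ∧ (∀ i j, ρ g⁻¹ i j ∈ S) := by
    intro g
    have hg : g ∈ closure {a, b} := by rw [hgen]; trivial
    induction hg using closure_induction with
    | mem x hx =>
      rcases hx with rfl | hx
      · exact ⟨fun i j => Algebra.subset_adjoin (Or.inl ⟨(i, j), rfl⟩),
          fun i j => Algebra.subset_adjoin (Or.inr (Or.inl ⟨(i, j), rfl⟩))⟩
      · rw [Set.mem_singleton_iff] at hx
        subst hx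
        exact ⟨fun i j => Algebra.subset_adjoin (Or.inr (Or.inr (Or.inl ⟨(i, j), rfl⟩))),
          fun i j => Algebra.subset_adjoin (Or.inr (Or.inr (Or.inr ⟨(i, j), rfl⟩)))⟩
    | one =>
      have : ∀ i j, ρ 1 i j ∈ S := by
        intro i j
        rw [map_one, Matrix.one_apply]
        split_ifs
        · exact one_mem S
        · exact zero_mem S
      refine ⟨this, ?_⟩
      rw [inv_one]
      exact this
    | mul x y _ _ hx hy =>
      refine ⟨fun i j => ?_, fun i j => ?_⟩
      · rw [map_mul, Matrix.mul_apply]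
        exact sum_mem (fun k _ => mul_mem (hx.1 i k) (hy.1 k j))
      · rw [mul_inv_rev, map_mul, Matrix.mul_apply]
        exact sum_mem (fun k _ => mul_mem (hy.2 i k) (hx.2 k j))
    | inv x _ hx =>
      refine ⟨hx.2, ?_⟩
      rw [inv_inv]
      exact hx.1
  let ι : S →+* F := S.val.toRingHom
  have hι : Function.Injective ι := Subtype.val_injective
  have hιm : Function.Injective (ι.mapMatrix : Matrix (Fin n) (Fin n) S →+* _) := by
    intro A B hAB
    ext i j
    have := congrFun (congrFun hAB i) j
    rw [RingHom.mapMatrix_apply, RingHom.mapMatrix_apply, Matrix.map_apply, Matrix.map_apply] at this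
    exact congrArg Subtype.val (hι this)
  let φ0 : G → Matrix (Fin n) (Fin n) S := fun g => Matrix.of fun i j => ⟨ρ g i j, (hent g).1 i j⟩
  have hφ0 : ∀ g, ι.mapMatrix (φ0 g) = ρ g := by
    intro g
    ext i j
    rfl
  let φ : G →* Matrix (Fin n) (Fin n) S :=
    { toFun := φ0
      map_one' := hιm (by rw [hφ0, map_one, map_one])
      map_mul' := fun x y => hιm (by rw [hφ0, map_mul, map_mul, hφ0, hφ0]) }
  have hφ : ∀ g, φ g = 1 → g = 1 := by
    intro g hg
    apply hρ
    rw [← hφ0 g]
    change ι.mapMatrix (φ g) = _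
    rw [hg, map_one, map_one]
  obtain ⟨k₁, iF₁, iN₁, θ₁, -⟩ := pt S hft 1 one_ne_zero
  have hp : ((ringChar k₁ : ℕ) : S) ≠ 0 := by
    intro h
    have h1 : ι ((ringChar k₁ : ℕ) : S) = 0 := by rw [h, map_zero]
    rw [map_natCast] at h1
    have h2 : ringChar k₁ = 0 := by exact_mod_cast h1
    have h3 : CharP k₁ 0 := by
      rw [← h2]
      exact ringChar.charP k₁
    haveI : CharZero k₁ := CharP.charP_to_charZero k₁
    exact not_finite_iff_infinite.mpr (CharZero.infinite k₁) iN₁
  obtain ⟨k₂, iF₂, iN₂, θ₂, hθ₂⟩ := pt S hft _ hp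
  let f₁ : G →* (Matrix (Fin n) (Fin n) k₁)ˣ :=
    ((θ₁.mapMatrix (m := Fin n)).toMonoidHom.comp φ).toHomUnits
  let f₂ : G →* (Matrix (Fin n) (Fin n) k₂)ˣ :=
    ((θ₂.mapMatrix (m := Fin n)).toMonoidHom.comp φ).toHomUnits
  haveI : Finite (Matrix (Fin n) (Fin n) k₁)ˣ := inferInstance
  haveI : Finite (Matrix (Fin n) (Fin n) k₂)ˣ := inferInstance
  haveI : Finite f₁.range := inferInstance
  haveI : Finite f₂.range := inferInstance
  refine ⟨f₁.ker ⊓ f₂.ker, inferInstance, inferInstance, ?_⟩
  intro x hx hfin
  by_contra hx1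
  have h0 : 0 < orderOf x := hfin.orderOf_pos
  have h1 : orderOf x ≠ 1 := fun h => hx1 (orderOf_eq_one_iff.1 h)
  obtain ⟨l, hl, hdvd⟩ := Nat.exists_prime_and_dvd h1
  set y := x ^ (orderOf x / l) with hy
  have h2 : orderOf y = l := orderOf_pow_orderOf_div h0.ne' hdvd
  have hyN : y ∈ f₁.ker ⊓ f₂.ker := pow_mem hx _
  have hφl : φ y ^ l = 1 := by
    rw [← map_pow, ← h2, pow_orderOf_eq_one, map_one]
  have hy1 : y ≠ 1 := by
    intro h
    rw [h, orderOf_one] at h2
    exact hl.one_lt.ne h2
  rw [mem_inf] at hyN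
  have hk1 : θ₁.mapMatrix (φ y) = 1 := congrArg Units.val (MonoidHom.mem_ker.1 hyN.1)
  have hk2 : θ₂.mapMatrix (φ y) = 1 := congrArg Units.val (MonoidHom.mem_ker.1 hyN.2)
  apply hy1
  apply hφ
  by_cases hc : θ₁ (l : S) = 0
  · refine tors θ₂ (φ y) l ?_ hφl hk2
    rw [map_natCast] at hc
    have h3 : ringChar k₁ ∣ l := (ringChar.spec _ l).1 hc
    have h4 : ringChar k₁ = l := ((Nat.dvd_prime hl).1 h3).resolve_left CharP.ringChar_ne_one
    rw [← h4]
    exact hθ₂
  · exact tors θ₁ (φ y) l hc hφl hk1

/-- the main theorem for linear groups in characteristic zero -/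
theorem linear {G : Type v} [Group G] [Infinite G] (a b : G) (hgen : closure {a, b} = ⊤)
    (hX : {g : G | (K a b g : Set G).Infinite}.Finite)
    {F : Type u} [Field F] [CharZero F] {n : ℕ} (ρ : G →* Matrix (Fin n) (Fin n) F)
    (hρ : Function.Injective ρ) : False := by
  classical
  obtain ⟨N, hN1, hN2, hN3⟩ := selberg a b hgen ρ hρ
  have hNinf : Infinite N := by
    have := inf_set N hN2
    exact this.to_subtype
  let A : N → G := fun _ => a
  let B : N → G := fun g => (g : G)⁻¹ * b * g
  let Δ : Subgroup (N → G) := closure {A, B}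
  have hA : ∀ g, A g = a := fun _ => rfl
  have hB : ∀ g, B g = (g : G)⁻¹ * b * g := fun _ => rfl
  have hP1 : ∀ δ ∈ Δ, ∀ g : N, δ g ∈ K a b g := by
    intro δ hδ
    induction hδ using closure_induction with
    | mem x hx =>
      intro g
      rcases hx with rfl | hx
      · exact subset_closure (by simp [A])
      · rw [Set.mem_singleton_iff] at hx
        subst hx
        exact subset_closure (by simp [B])
    | one => exact fun g => one_mem _
    | mul x y _ _ hx hy => exact fun g => mul_mem (hx g) (hy g)
    | inv x _ hx => exact fun g => inv_mem (hx g)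
  have hP2 : ∀ δ ∈ Δ, ∀ g : N, QuotientGroup.mk' N (δ g) = QuotientGroup.mk' N (δ 1) := by
    intro δ hδ
    induction hδ using closure_induction with
    | mem x hx =>
      intro g
      rcases hx with rfl | hx
      · rfl
      · rw [Set.mem_singleton_iff] at hx
        subst hx
        have hg : QuotientGroup.mk' N (g : G) = 1 := (QuotientGroup.eq_one_iff _).2 g.2
        rw [hB, hB]
        rw [map_mul, map_mul, map_inv, hg]
        simp
    | one => exact fun g => rfl
    | mul x y _ _ hx hy =>
      intro g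
      rw [Pi.mul_apply, Pi.mul_apply, map_mul, map_mul, hx g, hy g]
    | inv x _ hx =>
      intro g
      rw [Pi.inv_apply, Pi.inv_apply, map_inv, map_inv, hx g]
  have hr : MRep (fun g : N => ρ (g : G)) := MRep.right _ (fun g h => by
    rw [Subgroup.coe_mul, map_mul])
  have hl : MRep (fun g : N => ρ ((g : G)⁻¹)) := MRep.left _ (fun g h => by
    rw [Subgroup.coe_mul, mul_inv_rev, map_mul])
  have hP3 : ∀ δ ∈ Δ, MRep (fun g => ρ (δ g)) ∧ MRep (fun g => ρ (δ g)⁻¹) := by
    intro δ hδ
    induction hδ using closure_induction with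
    | mem x hx =>
      rcases hx with rfl | hx
      · exact ⟨MRep.const (ρ a), MRep.const (ρ a⁻¹)⟩
      · rw [Set.mem_singleton_iff] at hx
        subst hx
        constructor
        · have : (fun g => ρ (B g)) = fun g : N => ρ ((g : G)⁻¹) * ρ b * ρ (g : G) := by
            funext g
            rw [hB, map_mul, map_mul]
          rw [this]
          exact (hl.mul (MRep.const _)).mul hr
        · have : (fun g => ρ (B g)⁻¹) = fun g : N => ρ ((g : G)⁻¹) * ρ b⁻¹ * ρ (g : G) := by
            funext g
            rw [hB, ← map_mul, ← map_mul]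
            congr 1
            group
          rw [this]
          exact (hl.mul (MRep.const _)).mul hr
    | one =>
      constructor
      · exact MRep.const (ρ 1)
      · exact MRep.const (ρ 1⁻¹)
    | mul x y _ _ hx hy =>
      constructor
      · have : (fun g => ρ ((x * y) g)) = fun g : N => ρ (x g) * ρ (y g) := by
          funext g
          rw [Pi.mul_apply, map_mul]
        rw [this]
        exact hx.1.mul hy.1
      · have : (fun g => ρ ((x * y) g)⁻¹) = fun g : N => ρ (y g)⁻¹ * ρ (x g)⁻¹ := by
          funext g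
          rw [Pi.mul_apply, mul_inv_rev, map_mul]
        rw [this]
        exact hy.2.mul hx.2
    | inv x _ hx =>
      refine ⟨hx.2, ?_⟩
      have : (fun g => ρ ((x⁻¹) g)⁻¹) = fun g : N => ρ (x g) := by
        funext g
        rw [Pi.inv_apply, inv_inv]
      rw [this]
      exact hx.1
  -- evaluation at `1` is onto
  have hev : Δ.map (Pi.evalMonoidHom (fun _ : N => G) 1) = ⊤ := by
    rw [MonoidHom.map_closure, Set.image_pair]
    have h1 : (Pi.evalMonoidHom (fun _ : N => G) 1) A = a := rfl
    have h2 : (Pi.evalMonoidHom (fun _ : N => G) 1) B = b := by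
      change B 1 = b
      rw [hB]
      simp
    rw [h1, h2, hgen]
  have hNtriv : ∀ x ∈ N, x = 1 := by
    intro x hx
    have hx' : x ∈ Δ.map (Pi.evalMonoidHom (fun _ : N => G) 1) := by
      rw [hev]
      trivial
    obtain ⟨δ, hδ, hδx⟩ := hx'
    change δ 1 = x at hδx
    have h1 : ∀ g : N, ¬ (K a b g : Set G).Infinite → δ g = 1 := by
      intro g hg
      rw [Set.not_infinite] at hg
      apply hN3
      · have h2 := hP2 δ hδ g
        rw [hδx] at h2
        have h3 : QuotientGroup.mk' N x = 1 := (QuotientGroup.eq_one_iff _).2 hx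
        rw [h3] at h2
        exact (QuotientGroup.eq_one_iff _).1 h2
      · have h2 : Finite (K a b (g : G)) := hg.to_subtype
        have h3 := isOfFinOrder_of_finite (⟨δ g, hP1 δ hδ g⟩ : K a b (g : G))
        exact (Submonoid.isOfFinOrder_coe (H := (K a b (g : G)).toSubmonoid) (x := ⟨δ g, hP1 δ hδ g⟩)).2 h3
    have hXN : {g : N | (K a b (g : G) : Set G).Infinite}.Finite :=
      hX.preimage (f := fun g : N => (g : G)) (Subtype.val_injective.injOn)
    have h4 : ∀ i j, (fun g : N => ρ (δ g) i j) + (fun _ => -((1 : Matrix (Fin n) (Fin n) F) i j))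
        = 0 := by
      intro i j
      apply rep_zero
      · exact ((hP3 δ hδ).1 i j).add (Rep.const _)
      · refine hXN.subset ?_
        intro g hg
        by_contra hc
        apply hg
        rw [Pi.add_apply, h1 g hc, map_one]
        ring
    apply hρ
    rw [map_one, ← hδx]
    ext i j
    have h5 := congrFun (h4 i j) 1
    rw [Pi.add_apply, Pi.zero_apply] at h5
    exact add_neg_eq_zero.1 h5
  have : N = ⊥ := by
    rw [eq_bot_iff]
    intro x hx
    exact mem_bot.2 (hNtriv x hx)
  rw [this] at hNinf
  exact not_finite_iff_infinite.mpr hNinf inferInstance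

end Pool.Agent.TH784.RF
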