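import Mathlib

set_option autoImplicit false
set_option linter.style.haveILetI false

/-!
Unipotent groups over finite fields; finitely generated unipotent groups in characteristic `p`.
-/

namespace Pool.Agent.TH784.RF

section UU

variable {k : Type*} [Field k] {V : Type*} [AddCommGroup V] [Module k V]
  {P : Type*} [Group P] (T : P →* Module.End k V)

/-- the ascending chain of relative fixed spaces -/
def UU : ℕ → Submodule k V
  | 0 => ⊥
  | i + 1 => ⨅ x : P, (UU i).comap (T x - 1)

theorem mem_UU_succ (i : ℕ) (v : V) : v ∈ UU T (i + 1) ↔ ∀ x, (T x - 1) v ∈ UU T i := by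
  simp only [UU, Submodule.mem_iInf, Submodule.mem_comap]

theorem UU_le (i : ℕ) : UU T i ≤ UU T (i + 1) := by
  induction i with
  | zero => exact bot_le
  | succ i ih =>
    intro v hv
    rw [mem_UU_succ] at hv ⊢
    exact fun x => ih (hv x)

theorem UU_inv (i : ℕ) (x : P) (v : V) (hv : v ∈ UU T i) : T x v ∈ UU T i := by
  have h := (mem_UU_succ T i v).1 (UU_le T i hv) x
  have h1 : T x v = (T x - 1) v + v := by
    rw [LinearMap.sub_apply, Module.End.one_apply, sub_add_cancel]
  rw [h1]
  exact add_mem h hv

theorem UU_lt [Finite V] (p : ℕ) [hp : Fact p.Prime] (hpk : (p : k) = 0) (hP : IsPGroup p P) (i : ℕ)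
    (h : UU T i ≠ ⊤) : UU T i < UU T (i + 1) := by
  refine lt_of_le_of_ne (UU_le T i) ?_
  intro heq
  let U := UU T i
  letI act : MulAction P (V ⧸ U) :=
    { smul := fun x q => U.mapQ U (T x) (fun v hv => UU_inv T i x v hv) q
      one_smul := by
        intro q
        obtain ⟨v, rfl⟩ := Submodule.Quotient.mk_surjective U q
        change U.mapQ U (T 1) _ (Submodule.Quotient.mk v) = _
        rw [Submodule.mapQ_apply, map_one, Module.End.one_apply]
      mul_smul := by
        intro x y q
        obtain ⟨v, rfl⟩ := Submodule.Quotient.mk_surjective U q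
        change U.mapQ U (T (x * y)) _ (Submodule.Quotient.mk v) =
          U.mapQ U (T x) _ (U.mapQ U (T y) _ (Submodule.Quotient.mk v))
        rw [Submodule.mapQ_apply, Submodule.mapQ_apply, Submodule.mapQ_apply, map_mul,
          Module.End.mul_apply] }
  have hsm : ∀ (x : P) (v : V), x • (Submodule.Quotient.mk v : V ⧸ U) =
      Submodule.Quotient.mk (T x v) := by
    intro x v
    change U.mapQ U (T x) _ (Submodule.Quotient.mk v) = _
    rw [Submodule.mapQ_apply]
  haveI : Finite (V ⧸ U) :=
    Finite.of_surjective (fun v : V => (Submodule.Quotient.mk v : V ⧸ U))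
      (Submodule.Quotient.mk_surjective U)
  haveI : Nontrivial (V ⧸ U) := Submodule.Quotient.nontrivial_iff.2 h
  have hc : p ∣ Nat.card (V ⧸ U) := by
    obtain ⟨q, hq⟩ := exists_ne (0 : V ⧸ U)
    have h1 : p • q = 0 := by
      rw [← Nat.cast_smul_eq_nsmul k, hpk, zero_smul]
    have h2 : addOrderOf q = p := addOrderOf_eq_prime h1 hq
    rw [← h2]
    exact addOrderOf_dvd_natCard q
  have h0 : (0 : V ⧸ U) ∈ MulAction.fixedPoints P (V ⧸ U) := by
    intro x
    have := hsm x 0
    rw [map_zero] at this
    exact this
  obtain ⟨q, hq, hq0⟩ := hP.exists_fixed_point_of_prime_dvd_card_of_fixed_point (V ⧸ U) hc h0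
  obtain ⟨v, rfl⟩ := Submodule.Quotient.mk_surjective U q
  apply hq0
  symm
  rw [Submodule.Quotient.mk_eq_zero]
  change v ∈ UU T i
  rw [heq, mem_UU_succ]
  intro x
  have h3 := hq x
  rw [hsm] at h3
  rw [LinearMap.sub_apply, Module.End.one_apply]
  exact (Submodule.Quotient.eq U).1 h3

theorem UU_top [Finite V] [Module.Finite k V] (p : ℕ) [hp : Fact p.Prime] (hpk : (p : k) = 0)
    (hP : IsPGroup p P) : UU T (Module.finrank k V) = ⊤ := by
  have h : ∀ i, UU T i = ⊤ ∨ i ≤ Module.finrank k (UU T i) := by
    intro i
    induction i with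
    | zero => exact Or.inr (Nat.zero_le _)
    | succ i ih =>
      by_cases h1 : UU T i = ⊤
      · left
        rw [eq_top_iff, ← h1]
        exact UU_le T i
      · right
        have h2 := Submodule.finrank_lt_finrank_of_lt (UU_lt T p hpk hP i h1)
        have h3 := ih.resolve_left h1
        omega
  rcases h (Module.finrank k V) with h1 | h1
  · exact h1
  · exact Submodule.eq_top_of_finrank_eq (le_antisymm (Submodule.finrank_le _) h1)

theorem UU_prod (l : List P) (j : ℕ) (v : V) (hv : v ∈ UU T (l.length + j)) :
    (l.map (fun x => T x - 1)).prod v ∈ UU T j := by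
  induction l generalizing j with
  | nil => simpa using hv
  | cons x l ih =>
    rw [List.map_cons, List.prod_cons, Module.End.mul_apply]
    have h1 : (l.map (fun x => T x - 1)).prod v ∈ UU T (j + 1) := by
      apply ih
      rw [List.length_cons] at hv
      have : l.length + (j + 1) = l.length + 1 + j := by omega
      rw [this]
      exact hv
    exact (mem_UU_succ T j _).1 h1 x

end UU

/-- a `p`-group of matrices over a finite field of characteristic `p` -/
theorem uni {k : Type*} [Field k] [Finite k] {n : ℕ} {P : Type*} [Group P]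
    (p : ℕ) [hp : Fact p.Prime] (hpk : (p : k) = 0) (hP : IsPGroup p P)
    (σ : P →* Matrix (Fin n) (Fin n) k) (l : List P) (hl : l.length = n) :
    (l.map (fun x => σ x - 1)).prod = 0 := by
  let e := (Matrix.toLinAlgEquiv' (R := k) (n := Fin n))
  let T : P →* Module.End k (Fin n → k) := (e : _ →* _).comp σ
  have h1 : (l.map (fun x => T x - 1)).prod = 0 := by
    refine LinearMap.ext (fun v => ?_)
    have h2 : v ∈ UU T (l.length + 0) := by
      have := UU_top T p hpk hP
      rw [Module.finrank_fin_fun] at this
      rw [add_zero, hl, this]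
      trivial
    have h3 := UU_prod T l 0 v h2
    have h4 := (Submodule.mem_bot k).1 h3
    rw [h4]
    rfl
  have h2 : e ((l.map (fun x => σ x - 1)).prod) = 0 := by
    rw [map_list_prod, List.map_map, ← h1]
    congr 1
    apply List.map_congr_left
    intro x _
    change e (σ x - 1) = e (σ x) - 1
    rw [map_sub, map_one]
  exact (map_eq_zero_iff e e.injective).1 h2

/-- a finitely generated group `N` and a homomorphism to an algebra over a finite field for which
the products of `n` elements `φ x - 1` vanish: the image is finite -/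
theorem fin_range {κ : Type*} [Field κ] [Finite κ] {R : Type*} [Ring R] [Algebra κ R]
    {N : Type*} [Group N] [hN : Group.FG N] (φ : N →* R) (n : ℕ)
    (h : ∀ l : List N, l.length = n → (l.map (fun x => φ x - 1)).prod = 0) :
    (Set.range φ).Finite := by
  classical
  obtain ⟨X, hX⟩ := (Group.fg_def.1 hN)
  let Y : Set N := (X : Set N) ∪ (fun x => x⁻¹) '' (X : Set N)
  have hY : Y.Finite := X.finite_toSet.union (X.finite_toSet.image _)
  haveI : Finite Y := hY.to_subtype
  let f : List N → R := fun l => (l.map (fun x => φ x - 1)).prod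
  have happ : ∀ l m, f (l ++ m) = f l * f m := by
    intro l m
    simp only [f, List.map_append, List.prod_append]
  let Q : Set R := {r | ∃ l : List N, (∀ x ∈ l, x ∈ Y) ∧ r = f l ∧ l ≠ []}
  have hQ : Q.Finite := by
    have h1 : ((fun l : List Y => f (l.map Subtype.val)) '' {l : List Y | l.length < n} ∪ {0}).Finite :=
      ((List.finite_length_lt Y n).image _).union (Set.finite_singleton 0)
    refine h1.subset ?_
    rintro r ⟨l, hl, rfl, -⟩
    by_cases hln : l.length < n
    · left
      refine ⟨l.attach.map (fun x => ⟨x.1, hl x.1 x.2⟩), ?_, ?_⟩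
      · simpa using hln
      · change f (List.map Subtype.val (List.map _ l.attach)) = f l
        congr 1
        rw [List.map_map]
        have : (Subtype.val ∘ fun x : {x // x ∈ l} => (⟨x.1, hl x.1 x.2⟩ : Y)) =
            (Subtype.val : {x // x ∈ l} → N) := rfl
        rw [this]
        exact List.attach_map_subtype_val l
    · right
      have h2 : f l = f (l.take n) * f (l.drop n) := by
        rw [← happ, List.take_append_drop]
      have h3 : f (l.take n) = 0 := h _ (by rw [List.length_take]; omega)
      rw [Set.mem_singleton_iff, h2, h3, zero_mul]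
  let A : Submodule κ R := Submodule.span κ Q
  have hAfin : Finite A := by
    haveI : Module.Finite κ A := Module.Finite.iff_fg.2 (Submodule.fg_span hQ)
    exact Module.finite_of_finite κ
  have hAA : ∀ x ∈ A, ∀ y ∈ A, x * y ∈ A := by
    intro x hx y hy
    have h1 : A * A ≤ A := by
      change Submodule.span κ Q * Submodule.span κ Q ≤ _
      rw [Submodule.span_mul_span]
      apply Submodule.span_mono
      rintro _ ⟨_, ⟨l, hl, rfl, hl'⟩, _, ⟨m, hm, rfl, hm'⟩, rfl⟩
      refine ⟨l ++ m, ?_, (happ l m).symm, ?_⟩
      · intro z hz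
        rcases List.mem_append.1 hz with hz | hz
        · exact hl z hz
        · exact hm z hz
      · simp [hl']
    exact h1 (Submodule.mul_mem_mul hx hy)
  have hgen : ∀ y ∈ Y, φ y - 1 ∈ A := by
    intro y hy
    refine Submodule.subset_span ⟨[y], ?_, ?_, ?_⟩
    · intro x hx
      rw [List.mem_singleton] at hx
      rw [hx]
      exact hy
    · simp [f]
    · simp
  have hall : ∀ x : N, φ x - 1 ∈ A ∧ φ x⁻¹ - 1 ∈ A := by
    intro x
    have hx : x ∈ Subgroup.closure (X : Set N) := by rw [hX]; trivial
    induction hx using Subgroup.closure_induction with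
    | mem x hx => exact ⟨hgen x (Or.inl hx), hgen _ (Or.inr ⟨x, hx, rfl⟩)⟩
    | one => simp
    | mul x y _ _ hx hy =>
      constructor
      · have : φ (x * y) - 1 = (φ x - 1) * (φ y - 1) + (φ x - 1) + (φ y - 1) := by
          rw [map_mul]
          noncomm_ring
        rw [this]
        exact add_mem (add_mem (hAA _ hx.1 _ hy.1) hx.1) hy.1
      · have : φ (x * y)⁻¹ - 1 = (φ y⁻¹ - 1) * (φ x⁻¹ - 1) + (φ y⁻¹ - 1) + (φ x⁻¹ - 1) := by
          rw [mul_inv_rev, map_mul]
          noncomm_ring
        rw [this]
        exact add_mem (add_mem (hAA _ hy.2 _ hx.2) hy.2) hx.2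
    | inv x _ hx =>
      refine ⟨hx.2, ?_⟩
      rw [inv_inv]
      exact hx.1
  have h5 : ((fun r => r + 1) '' (A : Set R)).Finite := (Set.toFinite (A : Set R)).image _
  refine h5.subset ?_
  rintro _ ⟨x, rfl⟩
  exact ⟨φ x - 1, (hall x).1, sub_add_cancel _ _⟩

end Pool.Agent.TH784.RF
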