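import Mathlib
import Pool.Agent.TH784.RF.LC
import Pool.Agent.TH784.RF.LD

set_option autoImplicit false
set_option linter.style.haveILetI false

/-!
Linear groups over fields of positive characteristic.
-/

namespace Pool.Agent.TH784.RF

open Subgroup

universe u v

theorem descend {G : Type v} [Group G] (a b : G) (hgen : closure {a, b} = ⊤)
    {F : Type u} [Field F] {n : ℕ} (ρ : G →* Matrix (Fin n) (Fin n) F) :
    ∃ S : Subalgebra ℤ F, Algebra.FiniteType ℤ S ∧ ∃ φ : G →* Matrix (Fin n) (Fin n) S,
      ∀ g, (S.val.toRingHom).mapMatrix (φ g) = ρ g := by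
  classical
  let E : Set F := Set.range (fun p : Fin n × Fin n => ρ a p.1 p.2) ∪
    (Set.range (fun p : Fin n × Fin n => ρ a⁻¹ p.1 p.2) ∪
    (Set.range (fun p : Fin n × Fin n => ρ b p.1 p.2) ∪
    Set.range (fun p : Fin n × Fin n => ρ b⁻¹ p.1 p.2)))
  have hE : E.Finite := (Set.finite_range _).union ((Set.finite_range _).union
    ((Set.finite_range _).union (Set.finite_range _)))
  let S := Algebra.adjoin ℤ E
  have hft : Algebra.FiniteType ℤ S := Algebra.FiniteType.adjoin_of_finite hE
  have hent : ∀ g : G, (∀ i j, ρ g i j ∈ S) ∧ (∀ i j, ρ g⁻¹ i j ∈ S) := by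
    intro g
    have hg : g ∈ closure {a, b} := by rw [hgen]; trivial
    induction hg using closure_induction with
    | mem x hx =>
      rcases hx with rfl | hx
      · exact ⟨fun i j => Algebra.subset_adjoin (Or.inl ⟨(i, j), rfl⟩),
          fun i j => Algebra.subset_adjoin (Or.inr (Or.inl ⟨(i, j), rfl⟩))⟩
      · rw [Set.mem_singleton_iff] at hx
        subst hx
        exact ⟨fun i j => Algebra.subset_adjoin (Or.inr (Or.inr (Or.inl ⟨(i, j), rfl⟩))),
          fun i j => Algebra.subset_adjoin (Or.inr (Or.inr (Or.inr ⟨(i, j), rfl⟩)))⟩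
    | one =>
      have : ∀ i j, ρ 1 i j ∈ S := by
        intro i j
        rw [map_one, Matrix.one_apply]
        split_ifs
        · exact one_mem S
        · exact zero_mem S
      refine ⟨this, ?_⟩
      rw [inv_one]
      exact this
    | mul x y _ _ hx hy =>
      refine ⟨fun i j => ?_, fun i j => ?_⟩
      · rw [map_mul, Matrix.mul_apply]
        exact sum_mem (fun k _ => mul_mem (hx.1 i k) (hy.1 k j))
      · rw [mul_inv_rev, map_mul, Matrix.mul_apply]
        exact sum_mem (fun k _ => mul_mem (hy.2 i k) (hx.2 k j))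
    | inv x _ hx =>
      refine ⟨hx.2, ?_⟩
      rw [inv_inv]
      exact hx.1
  let ι : S →+* F := S.val.toRingHom
  have hι : Function.Injective ι := Subtype.val_injective
  have hιm : Function.Injective (ι.mapMatrix : Matrix (Fin n) (Fin n) S →+* _) := by
    intro A B hAB
    ext i j
    have := congrFun (congrFun hAB i) j
    rw [RingHom.mapMatrix_apply, RingHom.mapMatrix_apply, Matrix.map_apply, Matrix.map_apply] at this
    exact congrArg Subtype.val (hι this)
  let φ0 : G → Matrix (Fin n) (Fin n) S := fun g => Matrix.of fun i j => ⟨ρ g i j, (hent g).1 i j⟩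
  have hφ0 : ∀ g, ι.mapMatrix (φ0 g) = ρ g := by
    intro g
    ext i j
    rfl
  let φ : G →* Matrix (Fin n) (Fin n) S :=
    { toFun := φ0
      map_one' := hιm (by rw [hφ0, map_one, map_one])
      map_mul' := fun x y => hιm (by rw [hφ0, map_mul, map_mul, hφ0, hφ0]) }
  exact ⟨S, hft, φ, hφ0⟩

theorem words {G : Type v} [Group G] (a b : G) (hgen : closure {a, b} = ⊤)
    (N : Subgroup G) (hN : N.Normal)
    {F : Type u} [Field F] {n : ℕ} (ρ : G →* Matrix (Fin n) (Fin n) F) (x : G) :
    ∃ δ : N → G, δ 1 = x ∧ (∀ g : N, δ g ∈ K a b g) ∧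
      (∀ g : N, QuotientGroup.mk' N (δ g) = QuotientGroup.mk' N (δ 1)) ∧
      MRep (fun g => ρ (δ g)) := by
  let A : N → G := fun _ => a
  let B : N → G := fun g => (g : G)⁻¹ * b * g
  let Δ : Subgroup (N → G) := closure {A, B}
  have hA : ∀ g, A g = a := fun _ => rfl
  have hB : ∀ g, B g = (g : G)⁻¹ * b * g := fun _ => rfl
  have hP1 : ∀ δ ∈ Δ, ∀ g : N, δ g ∈ K a b g := by
    intro δ hδ
    induction hδ using closure_induction with
    | mem x hx =>
      intro g
      rcases hx with rfl | hx
      · exact subset_closure (by simp [A])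
      · rw [Set.mem_singleton_iff] at hx
        subst hx
        exact subset_closure (by simp [B])
    | one => exact fun g => one_mem _
    | mul x y _ _ hx hy => exact fun g => mul_mem (hx g) (hy g)
    | inv x _ hx => exact fun g => inv_mem (hx g)
  have hP2 : ∀ δ ∈ Δ, ∀ g : N, QuotientGroup.mk' N (δ g) = QuotientGroup.mk' N (δ 1) := by
    intro δ hδ
    induction hδ using closure_induction with
    | mem x hx =>
      intro g
      rcases hx with rfl | hx
      · rfl
      · rw [Set.mem_singleton_iff] at hx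
        subst hx
        have hg : QuotientGroup.mk' N (g : G) = 1 := (QuotientGroup.eq_one_iff _).2 g.2
        rw [hB, hB]
        rw [map_mul, map_mul, map_inv, hg]
        simp
    | one => exact fun g => rfl
    | mul x y _ _ hx hy =>
      intro g
      rw [Pi.mul_apply, Pi.mul_apply, map_mul, map_mul, hx g, hy g]
    | inv x _ hx =>
      intro g
      rw [Pi.inv_apply, Pi.inv_apply, map_inv, map_inv, hx g]
  have hr : MRep (fun g : N => ρ (g : G)) := MRep.right _ (fun g h => by
    rw [Subgroup.coe_mul, map_mul])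
  have hl : MRep (fun g : N => ρ ((g : G)⁻¹)) := MRep.left _ (fun g h => by
    rw [Subgroup.coe_mul, mul_inv_rev, map_mul])
  have hP3 : ∀ δ ∈ Δ, MRep (fun g => ρ (δ g)) ∧ MRep (fun g => ρ (δ g)⁻¹) := by
    intro δ hδ
    induction hδ using closure_induction with
    | mem x hx =>
      rcases hx with rfl | hx
      · exact ⟨MRep.const (ρ a), MRep.const (ρ a⁻¹)⟩
      · rw [Set.mem_singleton_iff] at hx
        subst hx
        constructor
        · have : (fun g => ρ (B g)) = fun g : N => ρ ((g : G)⁻¹) * ρ b * ρ (g : G) := by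
            funext g
            rw [hB, map_mul, map_mul]
          rw [this]
          exact (hl.mul (MRep.const _)).mul hr
        · have : (fun g => ρ (B g)⁻¹) = fun g : N => ρ ((g : G)⁻¹) * ρ b⁻¹ * ρ (g : G) := by
            funext g
            rw [hB, ← map_mul, ← map_mul]
            congr 1
            group
          rw [this]
          exact (hl.mul (MRep.const _)).mul hr
    | one =>
      constructor
      · exact MRep.const (ρ 1)
      · exact MRep.const (ρ 1⁻¹)
    | mul x y _ _ hx hy =>
      constructor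
      · have : (fun g => ρ ((x * y) g)) = fun g : N => ρ (x g) * ρ (y g) := by
          funext g
          rw [Pi.mul_apply, map_mul]
        rw [this]
        exact hx.1.mul hy.1
      · have : (fun g => ρ ((x * y) g)⁻¹) = fun g : N => ρ (y g)⁻¹ * ρ (x g)⁻¹ := by
          funext g
          rw [Pi.mul_apply, mul_inv_rev, map_mul]
        rw [this]
        exact hy.2.mul hx.2
    | inv x _ hx =>
      refine ⟨hx.2, ?_⟩
      have : (fun g => ρ ((x⁻¹) g)⁻¹) = fun g : N => ρ (x g) := by
        funext g
        rw [Pi.inv_apply, inv_inv]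
      rw [this]
      exact hx.1
  -- evaluation at `1` is onto
  have hev : Δ.map (Pi.evalMonoidHom (fun _ : N => G) 1) = ⊤ := by
    rw [MonoidHom.map_closure, Set.image_pair]
    have h1 : (Pi.evalMonoidHom (fun _ : N => G) 1) A = a := rfl
    have h2 : (Pi.evalMonoidHom (fun _ : N => G) 1) B = b := by
      change B 1 = b
      rw [hB]
      simp
    rw [h1, h2, hgen]
  have hx' : x ∈ Δ.map (Pi.evalMonoidHom (fun _ : N => G) 1) := by
    rw [hev]
    trivial
  obtain ⟨δ, hδ, hδx⟩ := hx'
  exact ⟨δ, hδx, hP1 δ hδ, hP2 δ hδ, (hP3 δ hδ).1⟩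

/-- `(Y - 1) ^ (p ^ m) = Y ^ (p ^ m) - 1` -/
theorem frob {F : Type u} [Field F] (p : ℕ) [hp : Fact p.Prime] [CharP F p] {n : ℕ}
    (Y : Matrix (Fin n) (Fin n) F) (m : ℕ) : (Y - 1) ^ (p ^ m) = Y ^ (p ^ m) - 1 := by
  have h : (Polynomial.X - 1 : Polynomial F) ^ (p ^ m) = Polynomial.X ^ (p ^ m) - 1 := by
    rw [sub_pow_char_pow, one_pow]
  have h1 := congrArg (Polynomial.aeval Y) h
  rw [map_pow, map_sub, map_one, map_sub, map_pow, map_one, Polynomial.aeval_X] at h1
  exact h1

theorem nil_pow {F : Type u} [Field F] {n : ℕ} (Z : Matrix (Fin n) (Fin n) F)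
    (h : IsNilpotent Z) : Z ^ n = 0 := by
  have h1 := (Matrix.isNilpotent_charpoly_sub_pow_of_isNilpotent h).eq_zero
  rw [sub_eq_zero, Fintype.card_fin] at h1
  have h2 := Matrix.aeval_self_charpoly Z
  rw [h1, map_pow, Polynomial.aeval_X] at h2
  exact h2

theorem MRep.pow {N : Type*} [Group N] {F : Type*} [Field F] {n : ℕ}
    {Φ : N → Matrix (Fin n) (Fin n) F} (h : MRep Φ) (m : ℕ) : MRep (fun g => Φ g ^ m) := by
  induction m with
  | zero =>
    have : (fun g => Φ g ^ 0) = fun _ => (1 : Matrix (Fin n) (Fin n) F) := by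
      funext g
      rw [pow_zero]
    rw [this]
    exact MRep.const _
  | succ m ih =>
    have : (fun g => Φ g ^ (m + 1)) = fun g => Φ g ^ m * Φ g := by
      funext g
      rw [pow_succ]
    rw [this]
    exact ih.mul h

/-- the main theorem for linear groups in characteristic `p` -/
theorem linear_p {G : Type v} [Group G] [Infinite G] (a b : G) (hgen : closure {a, b} = ⊤)
    (hX : {g : G | (K a b g : Set G).Infinite}.Finite)
    {F : Type u} [Field F] (p : ℕ) [hp : Fact p.Prime] [CharP F p] {n : ℕ}
    (ρ : G →* Matrix (Fin n) (Fin n) F) (hρ : Function.Injective ρ) : False := by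
  classical
  obtain ⟨S, hft, φ, hφ⟩ := descend a b hgen ρ
  have hι : Function.Injective S.val.toRingHom := Subtype.val_injective
  have hφ1 : ∀ g, φ g = 1 → g = 1 := by
    intro g hg
    apply hρ
    rw [← hφ g, hg, map_one, map_one]
  haveI hSp : CharP S p := (RingHom.charP_iff S.val.toRingHom hι p).2 inferInstance
  have hpS : (p : S) = 0 := CharP.cast_eq_zero S p
  obtain ⟨k, iF, iN, θ, -⟩ := pt S hft 1 one_ne_zero
  have hpk : (p : k) = 0 := by rw [← map_natCast θ, hpS, map_zero]
  let f : G →* (Matrix (Fin n) (Fin n) k)ˣ :=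
    ((θ.mapMatrix (m := Fin n)).toMonoidHom.comp φ).toHomUnits
  haveI : Finite (Matrix (Fin n) (Fin n) k)ˣ := inferInstance
  haveI : Finite f.range := inferInstance
  set N : Subgroup G := f.ker with hNdef
  have hNn : N.Normal := inferInstance
  haveI hNf : N.FiniteIndex := inferInstance
  have hN3 : ∀ x ∈ N, IsOfFinOrder x → ∃ m : ℕ, x ^ (p ^ m) = 1 := by
    intro x hx hfin
    have h0 : 0 < orderOf x := hfin.orderOf_pos
    have h1 : ∀ {l : ℕ}, l.Prime → l ∣ orderOf x → l = p := by
      intro l hl hdvd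
      by_contra hne
      set y := x ^ (orderOf x / l) with hy
      have h2 : orderOf y = l := orderOf_pow_orderOf_div h0.ne' hdvd
      have hyN : y ∈ f.ker := pow_mem hx _
      have hφl : φ y ^ l = 1 := by
        rw [← map_pow, ← h2, pow_orderOf_eq_one, map_one]
      have hk : θ.mapMatrix (φ y) = 1 := congrArg Units.val (MonoidHom.mem_ker.1 hyN)
      have hc : θ (l : S) ≠ 0 := by
        intro hc
        rw [map_natCast] at hc
        have h3 : ringChar k ∣ l := (ringChar.spec _ l).1 hc
        have h4 : ringChar k ∣ p := (ringChar.spec _ p).1 hpk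
        have h5 : ringChar k ∣ Nat.gcd l p := Nat.dvd_gcd h3 h4
        rw [(Nat.coprime_primes hl hp.out).2 hne] at h5
        exact CharP.ringChar_ne_one (Nat.dvd_one.1 h5)
      have h6 := hφ1 y (tors θ (φ y) l hc hφl hk)
      rw [h6, orderOf_one] at h2
      exact hl.one_lt.ne h2
    have h2 := Nat.eq_prime_pow_of_unique_prime_dvd h0.ne' h1
    exact ⟨_, by rw [← h2]; exact pow_orderOf_eq_one x⟩
  have hNinf : Infinite N := (inf_set N hNf).to_subtype
  have hXN : {g : N | (K a b (g : G) : Set G).Infinite}.Finite :=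
    hX.preimage (f := fun g : N => (g : G)) (Subtype.val_injective.injOn)
  -- `N` is unipotent
  have hun : ∀ x ∈ N, (ρ x - 1) ^ n = 0 := by
    intro x hx
    obtain ⟨δ, hδx, hδ1, hδ2, hδ3⟩ := words a b hgen N hNn ρ x
    have h1 : ∀ g : N, ¬ (K a b g : Set G).Infinite → (ρ (δ g) - 1) ^ n = 0 := by
      intro g hg
      rw [Set.not_infinite] at hg
      have h2 := hδ2 g
      rw [hδx] at h2
      have h3 : QuotientGroup.mk' N x = 1 := (QuotientGroup.eq_one_iff _).2 hx
      rw [h3] at h2
      have h4 : δ g ∈ N := (QuotientGroup.eq_one_iff _).1 h2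
      have h5 : IsOfFinOrder (δ g) := by
        have h2 : Finite (K a b (g : G)) := hg.to_subtype
        have h3 := isOfFinOrder_of_finite (⟨δ g, hδ1 g⟩ : K a b (g : G))
        exact (Submonoid.isOfFinOrder_coe (H := (K a b (g : G)).toSubmonoid)
          (x := ⟨δ g, hδ1 g⟩)).2 h3
      obtain ⟨m, hm⟩ := hN3 _ h4 h5
      apply nil_pow
      refine ⟨p ^ m, ?_⟩
      rw [frob p, ← map_pow, hm, map_one, sub_self]
    have hrep : MRep (fun g : N => (ρ (δ g) - 1) ^ n) := by
      apply MRep.pow
      intro i j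
      have : (fun g : N => (ρ (δ g) - 1) i j) =
          (fun g : N => ρ (δ g) i j) + (fun _ => -((1 : Matrix (Fin n) (Fin n) F) i j)) := by
        funext g
        rw [Pi.add_apply, Matrix.sub_apply, sub_eq_add_neg]
      rw [this]
      exact (hδ3 i j).add (Rep.const _)
    ext i j
    have h6 : (fun g : N => ((ρ (δ g) - 1) ^ n) i j) = 0 := by
      apply rep_zero _ (hrep i j)
      refine hXN.subset ?_
      intro g hg
      by_contra hc
      apply hg
      change ((ρ (δ g) - 1) ^ n) i j = 0
      rw [h1 g hc]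
      rfl
    have h7 := congrFun h6 1
    change ((ρ (δ 1) - 1) ^ n) i j = 0 at h7
    rw [hδx] at h7
    exact h7
  have hpg : IsPGroup p N := by
    intro x
    refine ⟨n, ?_⟩
    have h1 : n ≤ p ^ n := (Nat.lt_pow_self hp.out.one_lt).le
    have h2 : (ρ (x : G) - 1) ^ (p ^ n) = 0 := by
      obtain ⟨c, hc⟩ := Nat.exists_eq_add_of_le h1
      rw [hc, pow_add, hun x x.2, zero_mul]
    rw [frob p, ← map_pow, sub_eq_zero] at h2
    apply Subtype.ext
    rw [Subgroup.coe_pow, Subgroup.coe_one]
    apply hρ
    rw [h2, map_one]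
  let ψ : N →* Matrix (Fin n) (Fin n) S := φ.comp N.subtype
  have hψ : Function.Injective ψ := by
    rw [injective_iff_map_eq_one]
    intro x hx
    exact Subtype.ext (hφ1 _ hx)
  have hprod : ∀ l : List N, l.length = n → (l.map (fun x => ψ x - 1)).prod = 0 := by
    intro l hl
    ext i j
    have hJ : IsJacobsonRing S := by
      haveI := jac_int
      exact isJacobsonRing_of_finiteType (A := ℤ) (B := S)
    have h1 : (⊥ : Ideal S).jacobson = ⊥ := hJ.out' _ (by
      haveI : (⊥ : Ideal S).IsPrime := Ideal.isPrime_bot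
      exact this.isRadical)
    have h2 : ((l.map (fun x => ψ x - 1)).prod) i j ∈ (⊥ : Ideal S).jacobson := by
      rw [Ideal.jacobson, Ideal.mem_sInf]
      intro m hm
      have hm' : m.IsMaximal := hm.2
      letI : Field (S ⧸ m) := Ideal.Quotient.field m
      haveI : Finite (S ⧸ m) := residue_finite S hft m hm'
      have h3 : (p : S ⧸ m) = 0 := by
        have h3' := map_natCast (Ideal.Quotient.mk m) p
        rw [hpS, map_zero] at h3'
        exact h3'.symm
      let σ : N →* Matrix (Fin n) (Fin n) (S ⧸ m) :=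
        (((Ideal.Quotient.mk m).mapMatrix (m := Fin n)).toMonoidHom).comp ψ
      have h4 := uni p h3 hpg σ l hl
      have h5 : (Ideal.Quotient.mk m).mapMatrix (l.map (fun x => ψ x - 1)).prod = 0 := by
        rw [map_list_prod, List.map_map, ← h4]
        congr 1
        apply List.map_congr_left
        intro x _
        change (Ideal.Quotient.mk m).mapMatrix (ψ x - 1) = (Ideal.Quotient.mk m).mapMatrix (ψ x) - 1
        rw [map_sub, map_one]
      have h6 := congrFun (congrFun h5 i) j
      rw [RingHom.mapMatrix_apply, Matrix.map_apply, Matrix.zero_apply] at h6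
      exact Ideal.Quotient.eq_zero_iff_mem.1 h6
    rw [h1] at h2
    exact congrArg Subtype.val ((Submodule.mem_bot S).1 h2)
  letI : Algebra (ZMod p) S := ZMod.algebra S p
  haveI : Group.FG G := Group.fg_iff.2 ⟨{a, b}, hgen, Set.toFinite _⟩
  haveI : Group.FG N := Subgroup.fg_of_index_ne_zero N
  have hfin := fin_range (κ := ZMod p) ψ n hprod
  haveI := hfin.to_subtype
  have : Finite N := Finite.of_injective (Set.rangeFactorization ψ)
    (fun x y h => hψ (congrArg Subtype.val h))
  exact not_finite_iff_infinite.mpr hNinf this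

end Pool.Agent.TH784.RF
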